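import Pool.Agent.Lib.MP_ae5b4e_an_NB2.Sys
import Pool.Agent.Lib.MP_ae5b4e_an_N5.Defs

/-!
# MP_ae5b4e_an, unbounded case: the base facts (interface of NBd for the parts M, T, A, N3, N4)

`v = h - h_F - Im m`, where `m` is the mean of `L - t` over the period (normalisation (N): the
function `G` and the label `L` below are the functions of NBd composed with `t ↦ t - m ρ`).
Only the upper half of the domains occurs.
-/

noncomputable section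

namespace Pool.Agent.MP_ae5b4e_an_PB

open Complex Set Filter Topology Metric
open Pool.Agent.MP_ae5b4e_an_NBT (St Mer EqM)
open Pool.Agent.MP_ae5b4e_an_NB2 (Sys)
open Pool.Agent.MP_ae5b4e_an_N5 (NV)

/-- the upper part of the domain of `G` (the function `F` of the text): `Im t < h_F (ρ)` -/
def DFU (v : ℂ → ℝ) (h R : ℝ) : Set (ℂ × ℂ) :=
  {p | ‖p.2‖ < R ∧ 0 < p.1.im ∧ p.1.im < h - v p.2}

/-- the upper part of the domain of the label: `Im t < h_K (ρ) = h_F (ρ) - |Im ρ|` -/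
def DKU (v : ℂ → ℝ) (h R : ℝ) : Set (ℂ × ℂ) :=
  {p | ‖p.2‖ < R ∧ 0 < p.1.im ∧ p.1.im < h - v p.2 - |p.2.im|}

/-- `G` is regular at `p` (a point of `DFU` or of the line `Im t = h - v ρ`): it has a meromorphic
extension to a neighbourhood of `p` -/
def RegF (v : ℂ → ℝ) (h R : ℝ) (G : ℂ × ℂ → ℂ) (p : ℂ × ℂ) : Prop :=
  ∃ N ∈ 𝓝 p, ∃ g : ℂ × ℂ → ℂ, Mer g N ∧ ∀ q ∈ N ∩ DFU v h R, EqM g G q

/-- the base facts -/
structure Base (Y : Sys) (h R C0 : ℝ) (v : ℂ → ℝ) (G L : ℂ × ℂ → ℂ) : Prop where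
  h_pos : 0 < h
  R_pos : 0 < R
  R_one : R ≤ 1
  C0_one : 1 ≤ C0
  on : Y.On (St (-h) h)
  qan : AnalyticOnNhd ℂ Y.Q (St (-h) h)
  qper : ∀ t ∈ St (-h) h, Y.Q (t + 1) = Y.Q t
  /-- subharmonic, `≥ - |Im ρ|`, even, `v 0 = 0`, `≤ C0` -/
  nv : NV v R C0
  /-- the domain of the label contains the strip `0 < Im t < h / 2` -/
  half : ∀ ρ ∈ ball (0:ℂ) R, v ρ + |ρ.im| ≤ h / 2
  merG : Mer G (DFU v h R)
  an : AnalyticOnNhd ℂ L (DKU v h R)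
  maps : ∀ p ∈ DKU v h R, L p ∈ St (-h) h
  zero : ∀ t : ℂ, 0 < t.im → t.im < h → L (t, 0) = t
  even : ∀ p ∈ DKU v h R, L (p.1, -p.2) = L p
  per : ∀ p ∈ DKU v h R, L (p.1 + 1, p.2) = L p + 1
  node : ∀ t ρ : ℂ, (t, ρ) ∈ DKU v h R → (t + ρ, ρ) ∈ DKU v h R → (t - ρ, ρ) ∈ DKU v h R →
    Y.node (L (t, ρ)) (L (t + ρ, ρ)) (L (t - ρ, ρ))
  /-- (M3) the depth of the label -/
  dep : ∀ p ∈ DKU v h R,
    (1 - C0 * ‖p.2‖ ^ 2) * (h - v p.2 - |p.2.im| - p.1.im) ≤ h - (L p).im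
  /-- `Q + 6 a' = O(1)`, where `a` is the coefficient of `ρ ^ 2` in `L` -/
  qa : ∀ t : ℂ, 0 < t.im → t.im < h →
    ‖Y.Q t + 3 * deriv (fun s => deriv (deriv (fun ρ => L (s, ρ))) 0) t‖ ≤ C0
  /-- `G = F_0 ∘ L`, `F_0 = y2 / y1` -/
  eqG : ∀ p ∈ DKU v h R, EqM G (fun q => Y.y2 (L q) / Y.y1 (L q)) p
  /-- there is a singular point on every line `Im t = h_F (ρ)` -/
  sing : ∀ ρ ∈ ball (0:ℂ) R, ∃ x : ℝ, ¬ RegF v h R G ((x:ℂ) + ((h - v ρ : ℝ) : ℂ) * I, ρ)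
  /-- G': for real irrational `c` two points of the line at distance `c` are not both regular -/
  gp : ∀ c : ℝ, 0 < c → c < R → Irrational c → ∀ x : ℝ,
    ¬ (RegF v h R G ((x:ℂ) + ((h - v c : ℝ) : ℂ) * I, (c:ℂ)) ∧
      RegF v h R G (((x - c : ℝ) : ℂ) + ((h - v c : ℝ) : ℂ) * I, (c:ℂ)))
  /-- G', window form: for every real `c` a window of length `2 c` of the line contains a singular
  point -/
  gpw : ∀ c : ℝ, 0 < c → c < R → ∀ a : ℝ, ¬ ∀ x : ℝ, |x - a| ≤ c →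
    RegF v h R G ((x:ℂ) + ((h - v c : ℝ) : ℂ) * I, (c:ℂ))

end Pool.Agent.MP_ae5b4e_an_PB
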