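import Pool.Agent.Lib.MP_ae5b4e_an_NBT.Label
import Pool.Agent.Lib.MP_ae5b4e_an_M0.Bd

/-!
# MP_ae5b4e_an, base facts: the mean of the label over the period

`LbD F c h R L`: `L` is the label of `exists_label`.  `mm L ρ` is the mean of `L (t, ρ) - t` over
a period; it does not depend on the height.  It is analytic, even, symmetric, and `O (ρ ^ 2)`.
-/

noncomputable section

namespace Pool.Agent.MP_ae5b4e_an_PB

open Complex Set Filter Topology Metric MeasureTheory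
open Pool.Agent.MP_ae5b4e_an_NBT
open Pool.Agent.MP_ae5b4e_an_M0 (merF)
open scoped ComplexConjugate

variable {k : ℂ → ℂ} {F G L : ℂ × ℂ → ℂ} {c h R : ℝ}

/-- the label of `exists_label` -/
structure LbD (F : ℂ × ℂ → ℂ) (c h R : ℝ) (L : ℂ × ℂ → ℂ) : Prop where
  R_pos : 0 < R
  R_le : R ≤ c / 4
  an : AnalyticOnNhd ℂ L (DK F c R)
  im : ∀ p ∈ DK F c R, |(L p).im| < h
  per : ∀ p ∈ DK F c R, L (p.1 + 1, p.2) = L p + 1
  even : ∀ p ∈ DK F c R, L (p.1, -p.2) = L p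
  cnj : ∀ p ∈ DK F c R, L (conj p.1, conj p.2) = conj (L p)
  zero : ∀ t : ℂ, |t.im| < h → L (t, 0) = t

theorem exists_lbD (hN : NBd k F c h G) : ∃ (R : ℝ) (L : ℂ × ℂ → ℂ), LbD F c h R L := by
  obtain ⟨R, h1, h2, L, h3, h4, h5⟩ := exists_label hN
  exact ⟨R, L, h1, h2, h3, fun p hp => (h4 p hp).1, fun p hp => (h4 p hp).2.1,
    fun p hp => (h4 p hp).2.2.1, fun p hp => (h4 p hp).2.2.2.1, h5⟩

/-- the mean of `L (t, ρ) - t` over a period -/
def mm (L : ℂ × ℂ → ℂ) (ρ : ℂ) : ℂ := ∫ x in (0:ℝ)..1, (L ((x:ℂ), ρ) - (x:ℂ))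

theorem merKF (hE : ConE k F c h G) : Mer (KF F) (St (-(c / 2)) (c / 2) ×ˢ ball 0 (c / 4)) := by
  have hc := hE.pos
  exact mer_KF (by linarith) (merF hE)

theorem slice_DK (hE : ConE k F c h G) (hR : R ≤ c / 4) {ρ : ℂ} (hρ : ρ ∈ ball (0:ℂ) R) :
    Convex ℝ {t | (t, ρ) ∈ DK F c R} ∧ IsOpen {t | (t, ρ) ∈ DK F c R} ∧
      (∀ t, |t.im| < c / 2 → (t, ρ) ∈ DK F c R) ∧
      ∀ t s : ℂ, t.im = s.im → (t, ρ) ∈ DK F c R → (s, ρ) ∈ DK F c R :=
  slice_Dom (by have := hE.pos; linarith) hR (merKF hE) hρ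

theorem base_DK (hE : ConE k F c h G) (hR : R ≤ c / 4) {t ρ : ℂ} (hρ : ρ ∈ ball (0:ℂ) R)
    (ht : |t.im| < c / 2) : (t, ρ) ∈ DK F c R := (slice_DK hE hR hρ).2.2.1 t ht

/-- the derivative of an integral with respect to a parameter -/
theorem diff_int {g : ℂ × ℂ → ℂ} {U : Set ℂ} (hU : IsOpen U)
    (hg : ∀ x ∈ Icc (0:ℝ) 1, ∀ ρ ∈ U, AnalyticAt ℂ g ((x:ℂ), ρ)) :
    DifferentiableOn ℂ (fun ρ => ∫ x in (0:ℝ)..1, g ((x:ℂ), ρ)) U := by
  intro ρ₀ hρ₀
  obtain ⟨ε, hε, hb⟩ := Metric.nhds_basis_closedBall.mem_iff.1 (hU.mem_nhds hρ₀)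
  set K : Set (ℂ × ℂ) := ((fun x : ℝ => (x:ℂ)) '' Icc (0:ℝ) 1) ×ˢ closedBall ρ₀ ε with hK
  have hKc : IsCompact K :=
    (isCompact_Icc.image continuous_ofReal).prod (isCompact_closedBall _ _)
  have hKan : ∀ p ∈ K, AnalyticAt ℂ g p := by
    rintro ⟨x, ρ⟩ ⟨⟨s, hs, rfl⟩, h2⟩
    exact hg s hs ρ (hb h2)
  have hfc : ContinuousOn (fun p => fderiv ℂ g p ((0:ℂ), (1:ℂ))) K := by
    intro p hp
    have h1 := (hKan p hp).fderiv.continuousAt
    exact (h1.clm_apply continuousAt_const).continuousWithinAt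
  obtain ⟨C, hC⟩ := hKc.exists_bound_of_continuousOn hfc
  have hcont : ∀ ρ ∈ closedBall ρ₀ ε, ContinuousOn (fun x : ℝ => g ((x:ℂ), ρ)) (Icc 0 1) := by
    intro ρ hρ x hx
    have h1 : ContinuousAt g ((x:ℂ), ρ) := (hKan _ ⟨⟨x, hx, rfl⟩, hρ⟩).continuousAt
    have h2 : ContinuousAt (fun x : ℝ => ((x:ℂ), ρ)) x := by fun_prop
    exact (ContinuousAt.comp (f := fun x : ℝ => ((x:ℂ), ρ)) h1 h2).continuousWithinAt
  have hmain := intervalIntegral.hasDerivAt_integral_of_dominated_loc_of_deriv_le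
    (μ := volume) (a := 0) (b := 1) (bound := fun _ => C)
    (F := fun ρ (x:ℝ) => g ((x:ℂ), ρ)) (F' := fun ρ (x:ℝ) => fderiv ℂ g ((x:ℂ), ρ) ((0:ℂ), (1:ℂ)))
    (x₀ := ρ₀) (s := ball ρ₀ ε) (ball_mem_nhds _ hε) ?_ ?_ ?_ ?_ ?_ ?_
  · exact hmain.2.differentiableAt.differentiableWithinAt
  · filter_upwards [ball_mem_nhds ρ₀ hε] with ρ hρ
    have h1 := hcont ρ (ball_subset_closedBall hρ)
    have h2 := h1.aestronglyMeasurable (μ := volume) measurableSet_Icc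
    refine h2.mono_measure (Measure.restrict_mono ?_ le_rfl)
    rw [uIoc_of_le zero_le_one]
    exact Ioc_subset_Icc_self
  · refine ContinuousOn.intervalIntegrable ?_
    rw [uIcc_of_le zero_le_one]
    exact hcont ρ₀ (mem_closedBall_self hε.le)
  · have h1 : ContinuousOn (fun x : ℝ => fderiv ℂ g ((x:ℂ), ρ₀) ((0:ℂ), (1:ℂ))) (Icc 0 1) := by
      refine hfc.comp (f := fun x : ℝ => ((x:ℂ), ρ₀)) (by fun_prop) ?_
      intro x hx
      exact ⟨⟨x, hx, rfl⟩, mem_closedBall_self hε.le⟩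
    have h2 := h1.aestronglyMeasurable (μ := volume) measurableSet_Icc
    refine h2.mono_measure (Measure.restrict_mono ?_ le_rfl)
    rw [uIoc_of_le zero_le_one]
    exact Ioc_subset_Icc_self
  · refine Eventually.of_forall fun x hx ρ hρ => ?_
    rw [uIoc_of_le zero_le_one] at hx
    exact hC _ ⟨⟨x, Ioc_subset_Icc_self hx, rfl⟩, ball_subset_closedBall hρ⟩
  · exact intervalIntegrable_const
  · refine Eventually.of_forall fun x hx ρ hρ => ?_
    rw [uIoc_of_le zero_le_one] at hx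
    have h1 := (hKan ((x:ℂ), ρ) ⟨⟨x, Ioc_subset_Icc_self hx, rfl⟩,
      ball_subset_closedBall hρ⟩).differentiableAt.hasFDerivAt
    have h2 : HasDerivAt (fun ρ : ℂ => ((x:ℂ), ρ)) ((0:ℂ), (1:ℂ)) ρ :=
      (hasDerivAt_const ρ (x:ℂ)).prodMk (hasDerivAt_id ρ)
    exact h1.comp_hasDerivAt ρ h2

/-- an even analytic function with a zero -/
theorem even_bound {f : ℂ → ℂ} {r B : ℝ} (hr : 0 < r) (hf : DifferentiableOn ℂ f (ball 0 r))
    (h0 : f 0 = 0) (hev : ∀ z ∈ ball (0:ℂ) r, f (-z) = f z) (hB : ∀ z ∈ ball (0:ℂ) r, ‖f z‖ < B) :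
    ∀ z ∈ ball (0:ℂ) r, ‖f z‖ ≤ B / r ^ 2 * ‖z‖ ^ 2 := by
  have hB0 : 0 < B := (norm_nonneg _).trans_lt (hB 0 (mem_ball_self hr))
  have hm : MapsTo f (ball 0 r) (closedBall (f 0) B) := by
    intro z hz
    rw [h0, mem_closedBall_zero_iff]
    exact (hB z hz).le
  have h0n : ball (0:ℂ) r ∈ 𝓝 (0:ℂ) := ball_mem_nhds _ hr
  have hd : deriv f 0 = 0 := by
    have h1 : HasDerivAt f (deriv f 0) 0 := ((hf 0 (mem_ball_self hr)).differentiableAt h0n).hasDerivAt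
    have h2 : HasDerivAt (fun z => f (-z)) (deriv f 0 * -1) 0 := by
      have h3 : HasDerivAt f (deriv f 0) (-(0:ℂ)) := by simpa using h1
      exact h3.comp 0 (hasDerivAt_neg (0:ℂ))
    have h4 : (fun z => f (-z)) =ᶠ[𝓝 0] f := by
      filter_upwards [h0n] with z hz
      exact hev z hz
    have h5 := (h2.congr_of_eventuallyEq h4.symm).unique h1
    have h6 : deriv f 0 * 2 = 0 := by linear_combination -h5
    exact (mul_eq_zero.1 h6).resolve_right two_ne_zero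
  set g : ℂ → ℂ := dslope f 0 with hg
  have hgd : DifferentiableOn ℂ g (ball 0 r) := (differentiableOn_dslope h0n).2 hf
  have hg0 : g 0 = 0 := by
    rw [hg, dslope_same, hd]
  have hgB : ∀ z ∈ ball (0:ℂ) r, ‖g z‖ ≤ B / r := fun z hz =>
    Complex.norm_dslope_le_div_of_mapsTo_ball hf (fun z hz => hm hz) hz
  intro z hz
  have h1 : f z = z * g z := by
    have h2 := sub_smul_dslope f 0 z
    rw [h0, sub_zero, sub_zero, smul_eq_mul] at h2
    exact h2.symm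
  -- Schwarz for `g`
  have h3 : ‖g z‖ ≤ B / r ^ 2 * ‖z‖ := by
    have hmg : MapsTo g (ball 0 r) (closedBall (g 0) (B / r)) := by
      intro w hw
      rw [hg0, mem_closedBall_zero_iff]
      exact hgB w hw
    have h4 := Complex.dist_le_div_mul_dist_of_mapsTo_ball hgd hmg hz
    rw [hg0, dist_zero_right, dist_zero_right, div_div, ← pow_two] at h4
    exact h4
  rw [h1, norm_mul]
  calc ‖z‖ * ‖g z‖ ≤ ‖z‖ * (B / r ^ 2 * ‖z‖) := by gcongr
    _ = B / r ^ 2 * ‖z‖ ^ 2 := by ring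

variable (hE : ConE k F c h G) (hL : LbD F c h R L)

include hE hL

theorem mm_diff : DifferentiableOn ℂ (mm L) (ball 0 R) := by
  have hc := hE.pos
  refine diff_int (g := fun p => L p - p.1) isOpen_ball ?_
  intro x _ ρ hρ
  exact (hL.an _ (base_DK hE hL.R_le hρ (by simp; linarith))).sub analyticAt_fst

theorem mm_zero : mm L 0 = 0 := by
  have hc := hE.pos
  have hch := hE.hc
  unfold mm
  have h1 : ∀ x : ℝ, L ((x:ℂ), 0) - (x:ℂ) = 0 := fun x => by
    rw [hL.zero _ (by simp; linarith), sub_self]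
  simp [h1]

theorem mm_even {ρ : ℂ} (hρ : ρ ∈ ball (0:ℂ) R) : mm L (-ρ) = mm L ρ := by
  have hc := hE.pos
  unfold mm
  congr 1
  funext x
  rw [hL.even ((x:ℂ), ρ) (base_DK hE hL.R_le hρ (by simp; linarith))]

theorem mm_conj {ρ : ℂ} (hρ : ρ ∈ ball (0:ℂ) R) : mm L (conj ρ) = conj (mm L ρ) := by
  have hc := hE.pos
  unfold mm
  rw [intervalIntegral.integral_of_le zero_le_one, intervalIntegral.integral_of_le zero_le_one,
    ← integral_conj]
  congr 1
  funext x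
  have h1 := hL.cnj ((x:ℂ), ρ) (base_DK hE hL.R_le hρ (by simp; linarith))
  simp only [conj_ofReal] at h1
  rw [map_sub, conj_ofReal, h1]

/-- the mean does not depend on the height -/
theorem mm_height {ρ : ℂ} (hρ : ρ ∈ ball (0:ℂ) R) {y : ℝ} (hy : ((y:ℂ) * I, ρ) ∈ DK F c R) :
    ∫ x in (0:ℝ)..1, (L ((x:ℂ) + (y:ℂ) * I, ρ) - ((x:ℂ) + (y:ℂ) * I)) = mm L ρ := by
  have hc := hE.pos
  obtain ⟨s1, s2, s3, s4⟩ := slice_DK hE hL.R_le hρ
  set S : Set ℂ := {t | (t, ρ) ∈ DK F c R} with hS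
  have hdiff : DifferentiableOn ℂ (fun t => L (t, ρ) - t) S := by
    intro t ht
    have h1 : AnalyticAt ℂ (fun s : ℂ => L (s, ρ)) t :=
      AnalyticAt.fun_comp (g := L) (f := fun s : ℂ => (s, ρ)) (hL.an (t, ρ) ht)
        (analyticAt_id.prod analyticAt_const)
    exact (h1.differentiableAt.sub differentiableAt_id).differentiableWithinAt
  have hmem : ∀ t : ℂ, t.im ∈ uIcc 0 y → t ∈ S := by
    intro t ht
    have h0 : ((0:ℝ):ℂ) * I ∈ S := s3 _ (by simp; linarith)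
    have hconv : ((t.im : ℝ):ℂ) * I ∈ S := by
      have h1 : Convex ℝ {u : ℝ | ((u:ℝ):ℂ) * I ∈ S} := by
        intro u hu v hv a b ha hb hab
        have h2 := s1 hu hv ha hb hab
        have e : a • (((u:ℝ):ℂ) * I) + b • (((v:ℝ):ℂ) * I) = ((a • u + b • v : ℝ) : ℂ) * I := by
          simp
          ring
        rw [e] at h2
        exact h2
      exact h1.ordConnected.uIcc_subset h0 hy ht
    exact s4 _ _ (by simp) hconv
  have hrect := Complex.integral_boundary_rect_eq_zero_of_differentiableOn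
    (fun t => L (t, ρ) - t) 0 (1 + (y:ℂ) * I) (hdiff.mono (by
      intro t ht
      refine hmem t ?_
      have h1 := ht.2
      simpa using h1))
  have hper : ∀ u : ℝ, u ∈ uIcc 0 y →
      L ((1:ℂ) + (u:ℂ) * I, ρ) - ((1:ℂ) + (u:ℂ) * I) = L ((u:ℂ) * I, ρ) - ((u:ℂ) * I) := by
    intro u hu
    have h1 := hL.per ((u:ℂ) * I, ρ) (hmem _ (by simpa using hu))
    have e : (1:ℂ) + (u:ℂ) * I = (u:ℂ) * I + 1 := by ring
    rw [e, h1]
    ring
  have hside : (∫ u in (0:ℝ)..y, (L ((1:ℂ) + (u:ℂ) * I, ρ) - ((1:ℂ) + (u:ℂ) * I))) =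
      ∫ u in (0:ℝ)..y, (L ((u:ℂ) * I, ρ) - ((u:ℂ) * I)) :=
    intervalIntegral.integral_congr fun u hu => hper u hu
  simp only [zero_re, zero_im, add_re, one_re, mul_re, ofReal_re, I_re, mul_zero, ofReal_im, I_im,
    mul_one, sub_self, add_zero, add_im, one_im, mul_im, zero_add, ofReal_zero, zero_mul,
    ofReal_one] at hrect
  rw [hside] at hrect
  have h9 : (∫ x in (0:ℝ)..1, (L ((x:ℂ), ρ) - (x:ℂ))) -
      ∫ x in (0:ℝ)..1, (L ((x:ℂ) + (y:ℂ) * I, ρ) - ((x:ℂ) + (y:ℂ) * I)) = 0 := by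
    linear_combination hrect
  unfold mm
  exact (sub_eq_zero.1 h9).symm

/-- the height of `K` is at most `h - Im (mm L ρ)`, for positive `y` -/
theorem hK_le_pos {ρ : ℂ} (hρ : ρ ∈ ball (0:ℂ) R) {y : ℝ} (hy0 : 0 < y)
    (hy : ExtM (KF F) (c / 2) (c / 4) y ρ) : y ≤ h - (mm L ρ).im := by
  have hc := hE.pos
  by_contra hlt
  rw [not_le] at hlt
  -- the bound at the heights `u < y`
  have key : ∀ u : ℝ, 0 ≤ u → u < y → u + (mm L ρ).im < h := by
    intro u hu huy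
    have hmem : ∀ x : ℝ, ((x:ℂ) + (u:ℂ) * I, ρ) ∈ DK F c R := by
      intro x
      obtain ⟨-, -, s3, -⟩ := slice_DK hE hL.R_le hρ
      obtain ⟨-, -, h3⟩ := s3 (0:ℂ) (by simp; linarith)
      obtain ⟨y', h4, h5⟩ := h3
      refine ⟨hρ, ⟨y, by simpa using huy, hy⟩, y', ?_, h5⟩
      have h6 : -(0:ℂ).im < y' := h4
      simp only [add_im, ofReal_im, mul_im, ofReal_re, I_im, mul_one, I_re, mul_zero, add_zero,
        zero_add]
      simp at h6
      linarith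
    have h1 := mm_height hE hL hρ (y := u) (by simpa using hmem 0)
    have hcont : ContinuousOn (fun x : ℝ => L ((x:ℂ) + (u:ℂ) * I, ρ) - ((x:ℂ) + (u:ℂ) * I))
        (uIcc 0 1) := by
      intro x _
      have h2 : ContinuousAt L ((x:ℂ) + (u:ℂ) * I, ρ) := (hL.an _ (hmem x)).continuousAt
      have h3 : ContinuousAt (fun x : ℝ => ((x:ℂ) + (u:ℂ) * I, ρ)) x := by fun_prop
      have h4 : ContinuousAt (fun x : ℝ => L ((x:ℂ) + (u:ℂ) * I, ρ)) x :=
        ContinuousAt.comp (f := fun x : ℝ => ((x:ℂ) + (u:ℂ) * I, ρ)) h2 h3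
      exact (h4.sub (by fun_prop)).continuousWithinAt
    have h5 : (mm L ρ).im =
        ∫ x in (0:ℝ)..1, ((L ((x:ℂ) + (u:ℂ) * I, ρ)).im - u) := by
      rw [← h1]
      have h6 := (Complex.imCLM).intervalIntegral_comp_comm
        (hcont.intervalIntegrable (μ := volume))
      simp only [imCLM_apply] at h6
      rw [← h6]
      congr 1
      funext x
      simp
    have h7 : (∫ x in (0:ℝ)..1, ((L ((x:ℂ) + (u:ℂ) * I, ρ)).im - u)) < ∫ x in (0:ℝ)..1, (h - u) := by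
      have hci : ContinuousOn (fun x : ℝ => (L ((x:ℂ) + (u:ℂ) * I, ρ)).im - u) (Icc 0 1) := by
        have h8 := (Complex.continuous_im.comp_continuousOn hcont)
        rw [uIcc_of_le zero_le_one] at h8
        refine h8.congr fun x _ => ?_
        simp
      refine intervalIntegral.integral_lt_integral_of_continuousOn_of_le_of_exists_lt one_pos hci
        continuousOn_const (fun x _ => ?_) ⟨0, by simp, ?_⟩
      · have := (abs_lt.1 (hL.im _ (hmem x))).2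
        linarith
      · have := (abs_lt.1 (hL.im _ (hmem 0))).2
        simp only [ofReal_zero] at this
        simp only [ofReal_zero]
        linarith
    rw [← h5] at h7
    simp at h7
    linarith
  obtain ⟨u, hu1, hu2⟩ := exists_between (max_lt hlt hy0)
  have h0u : 0 < u := (le_max_right _ _).trans_lt hu1
  have h1 := key u h0u.le hu2
  have h2 : h - (mm L ρ).im < u := (le_max_left _ _).trans_lt hu1
  linarith

/-- the height of `K` is at most `h - Im (mm L ρ)` -/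
theorem hK_le {ρ : ℂ} (hρ : ρ ∈ ball (0:ℂ) R) {y : ℝ}
    (hy : ExtM (KF F) (c / 2) (c / 4) y ρ) : y ≤ h - (mm L ρ).im := by
  have hc := hE.pos
  rcases le_total y (c / 2) with h1 | h1
  · exact h1.trans (hK_le_pos hE hL hρ (by linarith)
      (extM_base (merKF hE) (ball_subset_ball hL.R_le hρ)))
  · exact hK_le_pos hE hL hρ (by linarith) hy

theorem lb_per_int {p : ℂ × ℂ} (hp : p ∈ DK F c R) (n : ℤ) : L (p.1 + n, p.2) = L p + n := by
  have hρ : p.2 ∈ ball (0:ℂ) R := hp.1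
  obtain ⟨-, -, -, s4⟩ := slice_DK hE hL.R_le hρ
  have hm : ∀ n : ℤ, ((p.1 + n, p.2) : ℂ × ℂ) ∈ DK F c R := fun n =>
    s4 p.1 (p.1 + n) (by simp) hp
  induction n using Int.induction_on with
  | zero => simp
  | succ i ih =>
    have h1 := hL.per _ (hm i)
    simp only at h1
    have e : p.1 + (((i:ℤ) + 1 : ℤ) : ℂ) = p.1 + (((i:ℤ) : ℤ) : ℂ) + 1 := by
      push_cast
      ring
    rw [e, h1, ih]
    push_cast
    ring
  | pred i ih =>
    have h1 := hL.per _ (hm (-(i:ℤ) - 1))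
    simp only at h1
    have e : p.1 + ((-(i:ℤ) - 1 : ℤ) : ℂ) + 1 = p.1 + ((-(i:ℤ) : ℤ) : ℂ) := by
      push_cast
      ring
    rw [e, ih] at h1
    have h2 : L (p.1 + ((-(i:ℤ) - 1 : ℤ) : ℂ), p.2) = L p + ((-(i:ℤ) : ℤ) : ℂ) - 1 := by
      rw [h1]
      ring
    rw [h2]
    push_cast
    ring

/-- near the base the label is `t + O (ρ ^ 2)` -/
theorem near_base : ∃ C r : ℝ, 0 < C ∧ 0 < r ∧ r ≤ R ∧ ∀ t ρ : ℂ, |t.im| ≤ c / 4 → ‖ρ‖ < r →
    ‖L (t, ρ) - t‖ ≤ C * ‖ρ‖ ^ 2 := by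
  have hc := hE.pos
  have hch := hE.hc
  have hR := hL.R_pos
  set K : Set (ℂ × ℂ) := (Icc (0:ℝ) 1 ×ℂ Icc (-(c / 4)) (c / 4)) ×ˢ closedBall (0:ℂ) (R / 2) with hK
  have hKc : IsCompact K :=
    (isCompact_Icc.reProdIm isCompact_Icc).prod (isCompact_closedBall _ _)
  have hsub : K ⊆ DK F c R := by
    rintro ⟨t, ρ⟩ ⟨h1, h2⟩
    refine base_DK hE hL.R_le ?_ ?_
    · rw [mem_closedBall_zero_iff] at h2
      rw [mem_ball_zero_iff]
      linarith
    · have h3 := h1.2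
      have h4 : |t.im| ≤ c / 4 := abs_le.2 ⟨h3.1, h3.2⟩
      linarith
  have hcont : ContinuousOn (fun p : ℂ × ℂ => L p - p.1) K :=
    (hL.an.continuousOn.mono hsub).sub continuousOn_fst
  obtain ⟨B, hB⟩ := hKc.exists_bound_of_continuousOn hcont
  have hB0 : 0 ≤ B := by
    refine (norm_nonneg _).trans (hB ((0:ℂ), (0:ℂ)) ⟨⟨?_, ?_⟩, ?_⟩)
    · simp
    · simp
      linarith
    · simp
      linarith
  have hfund : ∀ t : ℂ, t ∈ (Icc (0:ℝ) 1 ×ℂ Icc (-(c / 4)) (c / 4)) → ∀ ρ : ℂ, ‖ρ‖ < R / 2 →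
      ‖L (t, ρ) - t‖ ≤ (B + 1) / (R / 2) ^ 2 * ‖ρ‖ ^ 2 := by
    intro t ht ρ hρ
    have hmem : ∀ z ∈ ball (0:ℂ) (R / 2), (t, z) ∈ K := fun z hz =>
      ⟨ht, ball_subset_closedBall hz⟩
    have ht' : |t.im| < h := by
      have h4 : |t.im| ≤ c / 4 := abs_le.2 ⟨ht.2.1, ht.2.2⟩
      linarith
    refine even_bound (f := fun z => L (t, z) - t) (by linarith) ?_ ?_ ?_ ?_ ρ
      (mem_ball_zero_iff.2 hρ)
    · intro z hz
      have h1 : AnalyticAt ℂ (fun s : ℂ => L (t, s)) z :=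
        AnalyticAt.fun_comp (g := L) (f := fun s : ℂ => (t, s)) (hL.an (t, z) (hsub (hmem z hz)))
          (analyticAt_const.prod analyticAt_id)
      exact (h1.differentiableAt.sub_const t).differentiableWithinAt
    · show L (t, 0) - t = 0
      rw [hL.zero t ht', sub_self]
    · intro z hz
      show L (t, -z) - t = L (t, z) - t
      rw [hL.even (t, z) (hsub (hmem z hz))]
    · intro z hz
      have := hB _ (hmem z hz)
      show ‖L (t, z) - t‖ < B + 1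
      simp only at this
      linarith
  refine ⟨(B + 1) / (R / 2) ^ 2, R / 2, by positivity, by linarith, by linarith, ?_⟩
  intro t ρ ht hρ
  set n : ℤ := ⌊t.re⌋ with hn
  have h1 := hfund (t - n) (by
    refine ⟨?_, ?_⟩
    · show (t - n).re ∈ Icc (0:ℝ) 1
      have h2 := Int.floor_le t.re
      have h3 := (Int.lt_floor_add_one t.re).le
      rw [sub_re, intCast_re]
      constructor <;> linarith
    · show (t - n).im ∈ Icc (-(c / 4)) (c / 4)
      rw [sub_im, intCast_im, sub_zero]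
      exact abs_le.1 ht) ρ hρ
  have hmem : ((t - n, ρ) : ℂ × ℂ) ∈ DK F c R := by
    refine base_DK hE hL.R_le (mem_ball_zero_iff.2 (by linarith)) ?_
    rw [sub_im, intCast_im, sub_zero]
    linarith
  have h2 := lb_per_int hE hL hmem n
  simp only [sub_add_cancel] at h2
  rw [h2]
  have e : L (t - n, ρ) + n - t = L (t - n, ρ) - (t - n) := by ring
  rw [e]
  exact h1

theorem mm_bound : ∃ C r : ℝ, 0 < C ∧ 0 < r ∧ r ≤ R ∧ ∀ ρ : ℂ, ‖ρ‖ < r →
    ‖mm L ρ‖ ≤ C * ‖ρ‖ ^ 2 := by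
  have hc := hE.pos
  obtain ⟨C, r, h1, h2, h3, h4⟩ := near_base hE hL
  refine ⟨C, r, h1, h2, h3, fun ρ hρ => ?_⟩
  have h5 := intervalIntegral.norm_integral_le_of_norm_le_const (a := 0) (b := 1)
    (f := fun x : ℝ => L ((x:ℂ), ρ) - (x:ℂ)) (C := C * ‖ρ‖ ^ 2) (fun x _ => h4 x ρ (by
      simp
      linarith) hρ)
  rw [sub_zero, abs_one, mul_one] at h5
  exact h5

end Pool.Agent.MP_ae5b4e_an_PB
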