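import Pool.Agent.Lib.MP_ae5b4e_an_PB.Dep
import Pool.Agent.Lib.MP_ae5b4e_an_NB1P.RealH
import Pool.Agent.Lib.MP_ae5b4e_an_GP.Base
import Pool.Agent.Lib.MP_ae5b4e_an_N5.Defs
import Pool.Agent.Lib.MP_ae5b4e_an_LL.Bridge

/-!
# MP_ae5b4e_an, base facts: the function `v = h - h_F - Im m`
-/

noncomputable section

namespace Pool.Agent.MP_ae5b4e_an_PB

open Complex Set Filter Topology Metric MeasureTheory
open Pool.Agent.MP_ae5b4e_an_NBT
open Pool.Agent.MP_ae5b4e_an_M0 (merF)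
open Pool.Agent.MP_ae5b4e_an_N5 (NV)
open Pool.Agent.Lib.MP_ae5b4e_an_LL (SubH subH_neg_of_supH)
open scoped ComplexConjugate

variable {k : ℂ → ℂ} {F G L : ℂ × ℂ → ℂ} {c h R : ℝ}

/-- `v = h - h_F - Im m` -/
def vv (F L : ℂ × ℂ → ℂ) (c h : ℝ) (ρ : ℂ) : ℝ := h - hgt F c (c / 4) (h + 1) ρ - (mm L ρ).im

/-- the label of a datum with natural boundary exists up to the height of `F` minus `|Im ρ|` -/
theorem extM_KF_of_lt (hE : ConE k F c h G) {ρ : ℂ} (hρ : ρ ∈ ball (0:ℂ) (c / 4)) {Y y : ℝ}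
    (hy : y < hgt F c (c / 4) Y ρ - |ρ.im|) : ExtM (KF F) (c / 2) (c / 4) y ρ := by
  have hc := hE.pos
  obtain ⟨z, hz1, hz2⟩ := exists_between (show y + |ρ.im| < hgt F c (c / 4) Y ρ by linarith)
  exact extM_KF hc (by linarith) (merF hE) (extM_of_lt hρ hz2) (by linarith)

theorem hgt_sub_le (hE : ConE k F c h G) (hL : LbD F c h R L) {ρ : ℂ} (hρ : ρ ∈ ball (0:ℂ) R)
    {Y : ℝ} : hgt F c (c / 4) Y ρ - |ρ.im| ≤ h - (mm L ρ).im := by
  apply le_of_forall_lt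
  intro y hy
  obtain ⟨z, hz1, hz2⟩ := exists_between hy
  exact hz1.trans_le (hK_le hE hL hρ (extM_KF_of_lt hE (ball_subset_ball hL.R_le hρ) hz2))

/-- the height at zero -/
theorem hgt_at_zero (hN : NBd k F c h G) : hgt F c (c / 4) (h + 1) 0 = h := by
  refine Pool.Agent.MP_ae5b4e_an_NB1P.hgt_zero hN.toConE.pos (by linarith) hN.toConE.ext ?_
  rintro ⟨y, hy1, hy2⟩
  exact Pool.Agent.MP_ae5b4e_an_GP.not_extM_above hN hy1 hy2

/-- **the standing assumptions of N5** -/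
theorem nv_vv (hN : NBd k F c h G) (hL : LbD F c h R L) :
    ∃ R' C₀ : ℝ, 0 < R' ∧ R' ≤ R ∧ 0 < C₀ ∧ NV (vv F L c h) R' C₀ := by
  have hE := hN.toConE
  have hc := hE.pos
  have hch := hE.hc
  have hmF := merF hE
  obtain ⟨C, r, hC, hr, hrR, hb⟩ := mm_bound hE hL
  have hsub4 : ball (0:ℂ) r ⊆ ball (0:ℂ) (c / 4) := ball_subset_ball (hrR.trans hL.R_le)
  have hsubR : ball (0:ℂ) r ⊆ ball (0:ℂ) R := ball_subset_ball hrR
  have hh : 0 < h := hc.trans hch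
  refine ⟨r, h + C * r ^ 2, hr, hrR, by positivity, ?_, ?_, ?_, ?_, ?_⟩
  · have h1 : SubH (fun z => -hgt F c (c / 4) (h + 1) z) (ball 0 (c / 4)) :=
      subH_neg_of_supH isOpen_ball (supH_hgt hc hmF (by linarith))
    have h2 : InnerProductSpace.HarmonicOnNhd (fun z => (mm L z).im) (ball 0 r) := by
      intro z hz
      have h3 : AnalyticAt ℂ (mm L) z :=
        (mm_diff hE hL).analyticOnNhd isOpen_ball z (hsubR hz)
      exact h3.harmonicAt_im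
    have h4 := ((h1.mono hsub4).add_const h).sub_harmonic isOpen_ball h2
    refine h4.congr isOpen_ball fun z _ => ?_
    show -hgt F c (c / 4) (h + 1) z + h - (mm L z).im = vv F L c h z
    unfold vv
    ring
  · intro z hz
    have := hgt_sub_le hE hL (hsubR hz) (Y := h + 1)
    unfold vv
    linarith
  · intro z hz
    unfold vv
    rw [mm_even hE hL (hsubR hz), Pool.Agent.MP_ae5b4e_an_NB1P.hgt_even]
    intro p hp
    exact hE.even p ⟨hp.1, ball_subset_ball (by linarith) hp.2⟩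
  · unfold vv
    rw [hgt_at_zero hN, mm_zero hE hL]
    simp
  · intro z hz
    have h1 : c ≤ hgt F c (c / 4) (h + 1) z := le_hgt hmF (by linarith) (hsub4 hz)
    have h2 := hb z (mem_ball_zero_iff.1 hz)
    have h3 := (abs_le.1 (Complex.abs_im_le_norm (mm L z))).1
    have h4 : C * ‖z‖ ^ 2 ≤ C * r ^ 2 := by
      have : ‖z‖ ^ 2 ≤ r ^ 2 := pow_le_pow_left₀ (norm_nonneg _) (mem_ball_zero_iff.1 hz).le 2
      exact mul_le_mul_of_nonneg_left this hC.le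
    unfold vv
    linarith

/-- **the depth of the label**, with the cut-off height -/
theorem dep_hgt (hE : ConE k F c h G) (hL : LbD F c h R L) : ∃ C r : ℝ, 0 < C ∧ 0 < r ∧ r ≤ R ∧
    ∀ ρ : ℂ, ‖ρ‖ < r → ∀ s : ℂ, -(c / 4) ≤ s.im → s.im < hgt F c (c / 4) (h + 1) ρ - |ρ.im| →
      (1 - C * ‖ρ‖ ^ 2) * (hgt F c (c / 4) (h + 1) ρ - |ρ.im| - s.im) ≤ h - (L (s, ρ)).im := by
  obtain ⟨C, r, hC, hr, hrR, hb⟩ := dep_raw hE hL
  refine ⟨C, r, hC, hr, hrR, fun ρ hρ s hs1 hs2 => ?_⟩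
  set y := hgt F c (c / 4) (h + 1) ρ - |ρ.im| with hy
  have hρ4 : ρ ∈ ball (0:ℂ) (c / 4) := mem_ball_zero_iff.2 (hρ.trans_le (hrR.trans hL.R_le))
  have h1 : Tendsto (fun b : ℝ => (1 - C * ‖ρ‖ ^ 2) * (b - s.im)) (𝓝[<] y)
      (𝓝 ((1 - C * ‖ρ‖ ^ 2) * (y - s.im))) := by
    have : Continuous fun b : ℝ => (1 - C * ‖ρ‖ ^ 2) * (b - s.im) := by fun_prop
    exact this.continuousAt.tendsto.mono_left nhdsWithin_le_nhds
  refine le_of_tendsto h1 ?_
  filter_upwards [Ioo_mem_nhdsLT hs2] with b hb'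
  exact hb ρ hρ b (extM_KF_of_lt hE hρ4 hb'.2) s hs1 hb'.1

end Pool.Agent.MP_ae5b4e_an_PB
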