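import Pool.Agent.Lib.MP_ae5b4e_an_PB.NV

/-!
# MP_ae5b4e_an, base facts: a singular point on every line
-/

noncomputable section

namespace Pool.Agent.MP_ae5b4e_an_PB

open Complex Set Filter Topology Metric MeasureTheory
open Pool.Agent.MP_ae5b4e_an_NBT
open Pool.Agent.MP_ae5b4e_an_M0 (merF)
open scoped ComplexConjugate

variable {k : ℂ → ℂ} {F G L : ℂ × ℂ → ℂ} {c h H R : ℝ} {ρ₀ : ℂ}

/-- `G` continues to the ball of radius `ε` about the point `x + i H`, for the parameters near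
`ρ₀` -/
def TopC (F G : ℂ × ℂ → ℂ) (c H : ℝ) (ρ₀ : ℂ) (ε x : ℝ) : Prop :=
  ∃ g : ℂ × ℂ → ℂ, Mer g (ball ((x:ℂ) + H * I) ε ×ˢ ball ρ₀ ε) ∧
    ∀ p ∈ (ball ((x:ℂ) + H * I) ε ×ˢ ball ρ₀ ε) ∩ DF F c (c / 4), EqM g G p

/-- a neighbourhood of parameters -/
private lemma sg_near (hE : ConE k F c h G) {ρ₁ : ℂ} (hρ₁ : ρ₁ ∈ ball (0:ℂ) (c / 4)) {y : ℝ}
    (hy : ExtM F c (c / 4) y ρ₁) : ∃ ε > 0, ball ρ₁ ε ⊆ ball 0 (c / 4) ∧
      (∀ ρ ∈ ball ρ₁ ε, ExtM F c (c / 4) y ρ) ∧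
      ∀ ρ ∈ ball ρ₁ ε, ∀ t : ℂ, -c < t.im → t.im < y → (t, ρ) ∈ DF F c (c / 4) := by
  obtain ⟨e1, he1, h1⟩ := Metric.eventually_nhds_iff_ball.1 hy.eventually
  obtain ⟨e2, he2, h2⟩ := Metric.isOpen_iff.1 isOpen_ball ρ₁ hρ₁
  refine ⟨min e1 e2, lt_min he1 he2, (ball_subset_ball (min_le_right _ _)).trans h2,
    fun ρ hρ => h1 ρ (ball_subset_ball (min_le_left _ _) hρ), fun ρ hρ t ht1 ht2 => ?_⟩
  have hρ0 : ρ ∈ ball (0:ℂ) (c / 4) := h2 (ball_subset_ball (min_le_right _ _) hρ)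
  refine ⟨hρ0, ⟨y, ht2, h1 ρ (ball_subset_ball (min_le_left _ _) hρ)⟩, c, ?_,
    extM_base (merF hE) ?_⟩
  · show -t.im < c
    linarith
  · rw [mem_ball_zero_iff] at hρ0 ⊢
    rwa [RCLike.norm_conj]

private lemma TopC.mono {ε ε' x : ℝ} (h : TopC F G c H ρ₀ ε x) (hε : ε' ≤ ε) :
    TopC F G c H ρ₀ ε' x := by
  obtain ⟨g, hg, hgG⟩ := h
  exact ⟨g, hg.mono (prod_mono (ball_subset_ball hε) (ball_subset_ball hε)), fun p hp =>
    hgG p ⟨⟨ball_subset_ball hε hp.1.1, ball_subset_ball hε hp.1.2⟩, hp.2⟩⟩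

/-- a smaller ball about a near point -/
private lemma TopC.near {ε x x' : ℝ} (h : TopC F G c H ρ₀ ε x) (hx : |x' - x| ≤ ε / 2) :
    TopC F G c H ρ₀ (ε / 2) x' := by
  obtain ⟨g, hg, hgG⟩ := h
  have h1 : ball ((x':ℂ) + H * I) (ε / 2) ⊆ ball ((x:ℂ) + H * I) ε := by
    apply ball_subset_ball'
    rw [dist_eq_norm]
    have : (x':ℂ) + H * I - (x + H * I) = ((x' - x : ℝ) : ℂ) := by
      push_cast
      ring
    rw [this, norm_real, Real.norm_eq_abs]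
    linarith
  have hε0 : 0 ≤ ε := by
    have := abs_nonneg (x' - x)
    linarith
  have h2 : ball ρ₀ (ε / 2) ⊆ ball ρ₀ ε := ball_subset_ball (by linarith)
  exact ⟨g, hg.mono (prod_mono h1 h2), fun p hp => hgG p ⟨⟨h1 hp.1.1, h2 hp.1.2⟩, hp.2⟩⟩

private lemma sg_dfshift (hE : ConE k F c h G) {p : ℂ × ℂ} (hp : p ∈ DF F c (c / 4)) {s : ℂ}
    (hs : s.im = p.1.im) : (s, p.2) ∈ DF F c (c / 4) :=
  (slice_Dom hE.pos le_rfl (merF hE) hp.1).2.2.2 p.1 s hs.symm hp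

/-- period one -/
private lemma TopC.succ (hE : ConE k F c h G) {ε x : ℝ} (hR : TopC F G c H ρ₀ ε x) :
    TopC F G c H ρ₀ ε (x + 1) := by
  obtain ⟨g, hg, hgG⟩ := hR
  have hd : Differentiable ℂ (fun _ : ℂ => (-1:ℂ)) := by fun_prop
  have hm : ∀ p : ℂ × ℂ, p.1 ∈ ball (((x + 1 : ℝ) : ℂ) + H * I) ε →
      p.1 + -1 ∈ ball ((x:ℂ) + H * I) ε := by
    intro p hp
    rw [mem_ball, dist_eq_norm] at hp ⊢
    have : p.1 + -1 - (x + H * I) = p.1 - (((x + 1 : ℝ) : ℂ) + H * I) := by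
      push_cast
      ring
    rwa [this]
  refine ⟨fun q => g (q.1 + -1, q.2), fun p hp => ?_, fun p hp => ?_⟩
  · exact MerAt.shift (h := fun _ => (-1:ℂ)) hd (hg _ ⟨hm p hp.1, hp.2⟩)
  · have h1 : (p.1 + -1, p.2) ∈ DF F c (c / 4) := sg_dfshift hE hp.2 (by simp)
    have h2 := EqM.shift (h := fun _ => (-1:ℂ)) hd (p := p) (hgG _ ⟨⟨hm p hp.1.1, hp.1.2⟩, h1⟩)
    have h3 := EqM.shift (h := fun _ => (-1:ℂ)) hd (p := p) (hE.perG _ h1)
    refine h2.trans (h3.symm.trans (EqM.of_eventuallyEq ?_))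
    refine Eventually.of_forall fun q => ?_
    show G (q.1 + -1 + 1, q.2) = G q
    rw [neg_add_cancel_right]

private lemma TopC.pred (hE : ConE k F c h G) {ε x : ℝ} (hR : TopC F G c H ρ₀ ε x) :
    TopC F G c H ρ₀ ε (x - 1) := by
  obtain ⟨g, hg, hgG⟩ := hR
  have hd : Differentiable ℂ (fun _ : ℂ => (1:ℂ)) := by fun_prop
  have hm : ∀ p : ℂ × ℂ, p.1 ∈ ball (((x - 1 : ℝ) : ℂ) + H * I) ε →
      p.1 + 1 ∈ ball ((x:ℂ) + H * I) ε := by
    intro p hp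
    rw [mem_ball, dist_eq_norm] at hp ⊢
    have : p.1 + 1 - (x + H * I) = p.1 - (((x - 1 : ℝ) : ℂ) + H * I) := by
      push_cast
      ring
    rwa [this]
  refine ⟨fun q => g (q.1 + 1, q.2), fun p hp => ?_, fun p hp => ?_⟩
  · exact MerAt.shift (h := fun _ => (1:ℂ)) hd (hg _ ⟨hm p hp.1, hp.2⟩)
  · have h1 : (p.1 + 1, p.2) ∈ DF F c (c / 4) := sg_dfshift hE hp.2 (by simp)
    have h2 := EqM.shift (h := fun _ => (1:ℂ)) hd (p := p) (hgG _ ⟨⟨hm p hp.1.1, hp.1.2⟩, h1⟩)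
    exact h2.trans (hE.perG _ hp.2)

private lemma TopC.add_int (hE : ConE k F c h G) {ε x : ℝ} (hR : TopC F G c H ρ₀ ε x) (n : ℤ) :
    TopC F G c H ρ₀ ε (x + n) := by
  induction n using Int.induction_on with
  | zero => simpa using hR
  | succ n ih =>
    have := ih.succ hE
    push_cast at this ⊢
    rwa [add_assoc] at this
  | pred n ih =>
    have := ih.pred hE
    push_cast at this ⊢
    rwa [add_sub_assoc] at this

/-- not all the top points are regular -/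
theorem sg_not_all (hE : ConE k F c h G) (hcH : c < H) (hmem₀ : ρ₀ ∈ ball (0:ℂ) (c / 4))
    (hext : ∀ y < H, ExtM F c (c / 4) y ρ₀) (hno : ¬ ∃ y > H, ExtM F c (c / 4) y ρ₀) :
    ∃ x : ℝ, ∀ ε > 0, ¬ TopC F G c H ρ₀ ε x := by
  by_contra hcon
  push Not at hcon
  have hc := hE.pos
  -- a uniform radius
  have huni : ∃ ε > 0, ∀ x ∈ Icc (0:ℝ) 1, TopC F G c H ρ₀ ε x := by
    refine isCompact_Icc.induction_on (p := fun S : Set ℝ => ∃ ε > 0, ∀ x ∈ S,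
      TopC F G c H ρ₀ ε x) ⟨1, one_pos, fun x hx => absurd hx (notMem_empty x)⟩ ?_ ?_ ?_
    · rintro S T hST ⟨ε, hε, h1⟩
      exact ⟨ε, hε, fun x hx => h1 x (hST hx)⟩
    · rintro S T ⟨ε, hε, h1⟩ ⟨ε', hε', h2⟩
      refine ⟨min ε ε', lt_min hε hε', fun x hx => ?_⟩
      rcases hx with hx | hx
      · exact (h1 x hx).mono (min_le_left _ _)
      · exact (h2 x hx).mono (min_le_right _ _)
    · intro x _
      obtain ⟨ε, hε, h1⟩ := hcon x
      refine ⟨ball x (ε / 2), mem_nhdsWithin_of_mem_nhds (ball_mem_nhds x (by positivity)),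
        ε / 2, by positivity, fun x' hx' => h1.near ?_⟩
      rw [mem_ball, Real.dist_eq] at hx'
      exact hx'.le
  obtain ⟨ε₁, hε₁, h1⟩ := huni
  have hall : ∀ x : ℝ, TopC F G c H ρ₀ ε₁ x := by
    intro x
    have h2 := (h1 (Int.fract x) ⟨Int.fract_nonneg x, (Int.fract_lt_one x).le⟩).add_int hE ⌊x⌋
    rwa [Int.fract_add_floor] at h2
  set ε := min ε₁ (H - c) with hε
  have hε0 : 0 < ε := lt_min hε₁ (by linarith)
  have hεc : ε ≤ H - c := min_le_right _ _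
  have hall' : ∀ x : ℝ, TopC F G c H ρ₀ ε x := fun x => (hall x).mono (min_le_left _ _)
  choose g hg hgG using hall'
  obtain ⟨e1, he1, hb1, -, hD1⟩ := sg_near hE hmem₀ (hext (H - ε / 2) (by linarith))
  set ε' := min e1 ε with hε'
  have hε'0 : 0 < ε' := lt_min he1 hε0
  have hε'1 : ball ρ₀ ε' ⊆ ball ρ₀ e1 := ball_subset_ball (min_le_left _ _)
  have hε'2 : ball ρ₀ ε' ⊆ ball ρ₀ ε := ball_subset_ball (min_le_right _ _)
  have hlow : ∀ q ∈ St (-c) (H - ε / 2) ×ˢ ball ρ₀ ε', q ∈ DF F c (c / 4) := by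
    rintro ⟨t, ρ⟩ ⟨h2, h3⟩
    exact hD1 ρ (hε'1 h3) t h2.1 h2.2
  obtain ⟨W, hW, hWe⟩ := exists_glue (ι := Option ℝ)
    (fun i => match i with
      | none => St (-c) (H - ε / 2) ×ˢ ball ρ₀ ε'
      | some x => ball ((x:ℂ) + H * I) ε ×ˢ ball ρ₀ ε')
    (by
      rintro (_ | x)
      · exact (isOpen_St _ _).prod isOpen_ball
      · exact isOpen_ball.prod isOpen_ball)
    (fun i => match i with
      | none => G
      | some x => g x)
    (by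
      rintro (_ | x)
      · exact fun q hq => hE.merG q (hlow q hq)
      · exact (hg x).mono (prod_mono Subset.rfl hε'2))
    (by
      have hns : ∀ x : ℝ, ∀ q ∈ (St (-c) (H - ε / 2) ×ˢ ball ρ₀ ε') ∩
          (ball ((x:ℂ) + H * I) ε ×ˢ ball ρ₀ ε'), EqM (g x) G q := by
        rintro x q ⟨hq1, hq2⟩
        exact hgG x q ⟨⟨hq2.1, hε'2 hq2.2⟩, hlow q hq1⟩
      rintro (_ | x) (_ | x') q hq
      · exact EqM.refl _ _
      · exact (hns x' q hq).symm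
      · exact hns x q ⟨hq.2, hq.1⟩
      · -- two balls
        obtain ⟨⟨hq1, hq2⟩, ⟨hq3, -⟩⟩ := hq
        have hpre : IsPreconnected ((ball ((x:ℂ) + H * I) ε ∩ ball ((x':ℂ) + H * I) ε) ×ˢ
            ball ρ₀ ε') :=
          (((convex_ball _ _).inter (convex_ball _ _)).prod (convex_ball _ _)).isPreconnected
        have hx : ∀ x : ℝ, q.1 ∈ ball ((x:ℂ) + H * I) ε →
            ∀ᶠ η : ℝ in 𝓝 0, ((q.1.re : ℂ) + H * I - η * I) ∈ ball ((x:ℂ) + H * I) ε := by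
          intro x hx
          have hcont : Continuous fun η : ℝ => ((q.1.re : ℂ) + H * I - η * I) := by fun_prop
          apply hcont.continuousAt.eventually
          apply isOpen_ball.mem_nhds
          rw [mem_ball, dist_eq_norm] at hx ⊢
          have e1 : (q.1.re : ℂ) + H * I - ((0:ℝ):ℂ) * I - (x + H * I) =
              ((q.1.re - x : ℝ) : ℂ) := by
            push_cast
            ring
          rw [e1, norm_real, Real.norm_eq_abs]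
          have e2 := Complex.abs_re_le_norm (q.1 - (x + H * I))
          have e3 : (q.1 - (x + H * I)).re = q.1.re - x := by simp
          rw [e3] at e2
          exact e2.trans_lt hx
        have hev := ((hx x hq1).and (hx x' hq3)).and (gt_mem_nhds (show (0:ℝ) < H by linarith))
        obtain ⟨η, ⟨⟨h2, h3⟩, h4⟩, h5⟩ :=
          ((hev.filter_mono nhdsWithin_le_nhds : ∀ᶠ η in 𝓝[>] (0:ℝ), _).and
            self_mem_nhdsWithin).exists
        have h5' : 0 < η := h5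
        have h6 : ((q.1.re : ℂ) + H * I - η * I, ρ₀) ∈ DF F c (c / 4) := by
          have e7 : ((q.1.re : ℂ) + H * I - η * I).im = H - η := by simp
          obtain ⟨e8, he8, -, -, h8⟩ := sg_near hE hmem₀ (hext (H - η / 2) (by linarith))
          exact h8 ρ₀ (mem_ball_self he8) _ (by rw [e7]; linarith) (by rw [e7]; linarith)
        refine Mer.eqM hpre ((hg x).mono (prod_mono inter_subset_left hε'2))
          ((hg x').mono (prod_mono inter_subset_right hε'2))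
          (p := ((q.1.re : ℂ) + H * I - η * I, ρ₀)) ⟨⟨h2, h3⟩, mem_ball_self hε'0⟩ ?_ q
          ⟨⟨hq1, hq3⟩, hq2⟩
        exact (hgG x _ ⟨⟨h2, mem_ball_self hε0⟩, h6⟩).trans
          (hgG x' _ ⟨⟨h3, mem_ball_self hε0⟩, h6⟩).symm)
  apply hno
  refine ⟨H + ε / 2, by linarith, ε', hε'0, hε'1.trans hb1, W, ?_, ?_⟩
  · refine hW.mono ?_
    rintro ⟨t, ρ⟩ ⟨h2, h3⟩
    rcases lt_or_ge t.im (H - ε / 2) with h4 | h4
    · exact mem_iUnion.2 ⟨none, ⟨h2.1, h4⟩, h3⟩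
    · refine mem_iUnion.2 ⟨some t.re, ?_, h3⟩
      show t ∈ ball ((t.re:ℂ) + H * I) ε
      rw [mem_ball, dist_eq_norm]
      have e1 : t - (t.re + H * I) = ((t.im - H : ℝ) : ℂ) * I := by
        apply Complex.ext <;> simp
      rw [e1, norm_mul, norm_I, mul_one, norm_real, Real.norm_eq_abs, abs_lt]
      have := h2.2
      constructor <;> linarith
  · rintro ⟨t, ρ⟩ ⟨h2, h3⟩
    have h4 : t.im < c := h2.2.trans_le (min_le_left _ _)
    have h5 : ((t, ρ) : ℂ × ℂ) ∈ St (-c) (H - ε / 2) ×ˢ ball ρ₀ ε' :=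
      ⟨⟨h2.1, by linarith⟩, h3⟩
    exact (hWe none _ h5).trans (hE.eqG _ ⟨⟨h2.1, h4⟩, hb1 (hε'1 h3)⟩)



/-- the points near a point of the line, in the domain of `F` -/
theorem mem_DF_near (hE : ConE k F c h G) {ρ₁ : ℂ} (hρ₁ : ρ₁ ∈ ball (0:ℂ) (c / 4)) {y : ℝ}
    (hy : ExtM F c (c / 4) y ρ₁) {t : ℂ} (h1 : -c < t.im) (h2 : t.im < y) :
    (t, ρ₁) ∈ DF F c (c / 4) := by
  obtain ⟨e, he, -, -, h8⟩ := sg_near hE hρ₁ hy
  exact h8 ρ₁ (mem_ball_self he) t h1 h2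

/-- **a singular point on every line**, for small parameters -/
theorem exists_sing (hN : NBd k F c h G) (hL : LbD F c h R L) : ∃ r : ℝ, 0 < r ∧ r ≤ R ∧
    ∀ ρ : ℂ, ‖ρ‖ < r → c < hgt F c (c / 4) (h + 1) ρ ∧ hgt F c (c / 4) (h + 1) ρ < h + 1 ∧
      ∃ x : ℝ, ¬ ∃ N ∈ 𝓝 (((x:ℂ) + ((hgt F c (c / 4) (h + 1) ρ : ℝ) : ℂ) * I, ρ) : ℂ × ℂ),
        ∃ g : ℂ × ℂ → ℂ, Mer g N ∧ ∀ q ∈ N ∩ DF F c (c / 4), EqM g G q := by
  have hE := hN.toConE
  have hc := hE.pos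
  have hch := hE.hc
  have hmF := merF hE
  have hR := hL.R_pos
  have h0 : (0:ℂ) ∈ ball (0:ℂ) (c / 4) := mem_ball_self (by linarith)
  have hlsc := hgt_lsc hmF (Y := h + 1) (by linarith) h0
  have hev : ∀ᶠ ρ : ℂ in 𝓝 0, c < hgt F c (c / 4) (h + 1) ρ :=
    hlsc c (by show c < hgt F c (c / 4) (h + 1) 0; rw [hgt_at_zero hN]; exact hch)
  obtain ⟨r₁, hr₁, h1⟩ := Metric.eventually_nhds_iff_ball.1 hev
  obtain ⟨C, r₂, hC, hr₂, hr₂R, hb⟩ := mm_bound hE hL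
  obtain ⟨r₃, hr₃, hr₃b⟩ : ∃ r₃ : ℝ, 0 < r₃ ∧ ∀ x : ℝ, 0 ≤ x → x < r₃ → C * x ^ 2 + x < 1 := by
    refine ⟨min 1 (1 / (2 * (C + 1))), lt_min one_pos (by positivity), fun x hx1 hx2 => ?_⟩
    have h3 : x < 1 := hx2.trans_le (min_le_left _ _)
    have h4 : x < 1 / (2 * (C + 1)) := hx2.trans_le (min_le_right _ _)
    rw [lt_div_iff₀ (by positivity)] at h4
    have h5 : x ^ 2 ≤ x := by nlinarith
    nlinarith
  refine ⟨min r₁ (min r₂ r₃), lt_min hr₁ (lt_min hr₂ hr₃),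
    (min_le_right _ _).trans ((min_le_left _ _).trans hr₂R), fun ρ hρ => ?_⟩
  have hρ1 : ‖ρ‖ < r₁ := hρ.trans_le (min_le_left _ _)
  have hρ2 : ‖ρ‖ < r₂ := hρ.trans_le ((min_le_right _ _).trans (min_le_left _ _))
  have hρ3 : ‖ρ‖ < r₃ := hρ.trans_le ((min_le_right _ _).trans (min_le_right _ _))
  have hρR : ρ ∈ ball (0:ℂ) R := mem_ball_zero_iff.2 (hρ2.trans_le hr₂R)
  have hρ4 : ρ ∈ ball (0:ℂ) (c / 4) := ball_subset_ball hL.R_le hρR
  have hcH : c < hgt F c (c / 4) (h + 1) ρ := h1 ρ (mem_ball_zero_iff.2 hρ1)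
  have hHY : hgt F c (c / 4) (h + 1) ρ < h + 1 := by
    have h2 := hgt_sub_le hE hL hρR (Y := h + 1)
    have h3 := hb ρ hρ2
    have h4 := (abs_le.1 (Complex.abs_im_le_norm (mm L ρ))).1
    have h5 := Complex.abs_im_le_norm ρ
    have h6 := hr₃b ‖ρ‖ (norm_nonneg _) hρ3
    linarith
  refine ⟨hcH, hHY, ?_⟩
  set H := hgt F c (c / 4) (h + 1) ρ with hH
  have hno : ¬ ∃ y > H, ExtM F c (c / 4) y ρ := by
    rintro ⟨y, hy, hex⟩
    have h3 := le_hgt_of_extM (hex.mono (min_le_left y (h + 1))) (min_le_right y (h + 1))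
    rcases min_choice y (h + 1) with h4 | h4 <;> rw [h4] at h3 <;> linarith
  obtain ⟨x, hx⟩ := sg_not_all hE hcH hρ4 (fun y hy => extM_of_lt hρ4 hy) hno
  refine ⟨x, ?_⟩
  rintro ⟨N, hN', g, hg, hgG⟩
  obtain ⟨ε, hε, hb⟩ := Metric.mem_nhds_iff.1 hN'
  rw [← ball_prod_same] at hb
  exact hx ε hε ⟨g, hg.mono hb, fun p hp => hgG p ⟨hb hp.1, hp.2⟩⟩

end Pool.Agent.MP_ae5b4e_an_PB
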