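import Pool.Agent.Lib.MP_ae5b4e_an_PB.Gp
import Pool.Agent.Lib.MP_ae5b4e_an_PB.NV
import Pool.Agent.Lib.MP_ae5b4e_an_PB.Sing

/-!
# MP_ae5b4e_an, unbounded case, part PB: the base facts
-/

noncomputable section

namespace Pool.Agent.MP_ae5b4e_an_PB

open Complex Set Filter Topology Metric
open Pool.Agent.MP_ae5b4e_an_NBT
open Pool.Agent.MP_ae5b4e_an_NB2 (Sys)
open Pool.Agent.MP_ae5b4e_an_NB4H (SysOf nf)
open Pool.Agent.MP_ae5b4e_an_N5 (NV)
open Pool.Agent.Lib.MP_ae5b4e_an_LL (SubH)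
open scoped ComplexConjugate

variable {k : ℂ → ℂ} {F G : ℂ × ℂ → ℂ} {c h : ℝ} {Y : Sys}
  {R R₁ C R' : ℝ} {m : ℂ → ℂ} {L : ℂ × ℂ → ℂ}

/-- `G` continues to a neighbourhood of the point of the line with real part `x` -/
def RegT (F G : ℂ × ℂ → ℂ) (c h : ℝ) (x : ℝ) (ρ : ℂ) : Prop :=
  ∃ N ∈ 𝓝 (((x:ℂ) + ((hgt F c (c / 4) (h + 1) ρ : ℝ) : ℂ) * I, ρ) : ℂ × ℂ),
    ∃ g : ℂ × ℂ → ℂ, Mer g N ∧ ∀ q ∈ N ∩ DF F c (c / 4), EqM g G q

private theorem asm_lbD (hL : LabY Y F G c h R L) : LbD F c h R L :=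
  ⟨hL.R_pos, hL.R_le, hL.an, hL.im, hL.per, hL.even, hL.refl, hL.zero⟩

theorem NV_mono {v : ℂ → ℝ} {R R' C C' : ℝ} (hv : NV v R C) (hR : R' ≤ R) (hC : C ≤ C') :
    NV v R' C' := by
  have hb : ball (0:ℂ) R' ⊆ ball 0 R := ball_subset_ball hR
  exact ⟨hv.sub.mono hb, fun z hz => hv.low z (hb hz), fun z hz => hv.even z (hb hz), hv.zero,
    fun z hz => (hv.up z (hb hz)).trans hC⟩

theorem isMean_mm (hE : ConE k F c h G) (hL : LbD F c h R L) :
    ∃ R₁ C : ℝ, R₁ ≤ R ∧ IsMean (mm L) R₁ C := by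
  obtain ⟨C, r, hC, hr, hrR, hb⟩ := mm_bound hE hL
  have hsub : ball (0:ℂ) r ⊆ ball 0 R := ball_subset_ball hrR
  refine ⟨r, C, hrR, hr, hC.le, ?_, ?_, ?_, ?_⟩
  · intro z hz
    exact ((mm_diff hE hL).analyticAt (isOpen_ball.mem_nhds (hsub hz)))
  · intro ρ hρ
    exact mm_even hE hL (hsub hρ)
  · intro x hx
    have hxm : ((x:ℝ):ℂ) ∈ ball (0:ℂ) R := by
      rw [mem_ball_zero_iff, Complex.norm_real, Real.norm_eq_abs]
      linarith
    have h1 := mm_conj hE hL hxm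
    rw [Complex.conj_ofReal] at h1
    exact Complex.conj_eq_iff_im.1 h1.symm
  · intro ρ hρ
    exact hb ρ (mem_ball_zero_iff.1 hρ)

/-- regularity on the line: from the shifted functions to the original ones -/
theorem regT_of_regF (hm : IsMean m R₁ C) (hs : Sm F c h R R₁ C R')
    (hlow : ∀ ρ ∈ ball (0:ℂ) R', -|ρ.im| ≤ vm F c h m ρ) {ρ : ℂ} (hρ : ρ ∈ ball (0:ℂ) R')
    {x : ℝ} (hr : RegF (vm F c h m) h R' (sh m G)
      (((x + (m ρ).re : ℝ) : ℂ) + ((h - vm F c h m ρ : ℝ) : ℂ) * I, ρ)) : RegT F G c h x ρ := by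
  obtain ⟨N', hN', g', hg', he'⟩ := hr
  have hm' : AnalyticOnNhd ℂ (fun ρ => -m ρ) (ball 0 R₁) := hm.an.neg
  have hρ₁ := ball_subset_ball hs.le₁ hρ
  set H := hgt F c (c / 4) (h + 1) ρ with hH
  set p₁ : ℂ × ℂ := ((x:ℂ) + (H:ℂ) * I, ρ) with hp₁
  set φ : ℂ × ℂ → ℂ × ℂ := fun q => (q.1 + m q.2, q.2) with hφ
  have hφp : φ p₁ = (((x + (m ρ).re : ℝ) : ℂ) + ((h - vm F c h m ρ : ℝ) : ℂ) * I, ρ) := by
    rw [hφ, hp₁]
    simp only [Prod.mk.injEq, and_true]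
    apply Complex.ext
    · simp
    · simp only [vm, ← hH, add_im, ofReal_im, mul_im, ofReal_re, I_im, mul_one, I_re, mul_zero,
        add_zero, zero_add]
      ring
  have hφc : ContinuousAt φ p₁ := by
    refine ContinuousAt.prodMk (continuousAt_fst.add ?_) continuousAt_snd
    exact ContinuousAt.comp (g := m) (f := fun q : ℂ × ℂ => q.2) (hm.an _ hρ₁).continuousAt
      continuousAt_snd
  have hbig := (hs.hg ρ hρ).2
  have hlo := hlow ρ hρ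
  have hmn := norm_m_le hm hs hρ
  have hmi := abs_le.1 ((abs_im_le_norm (m ρ)).trans hmn)
  have hρn : |ρ.im| ≤ R' := (abs_im_le_norm ρ).trans (mem_ball_zero_iff.1 hρ).le
  have hsh := hs.lt_h
  have hpos := hs.pos
  have hC := hm.C_nonneg
  have hCR : 0 ≤ C * R' ^ 2 := by positivity
  have hh : 0 < h := by linarith
  have hone := hs.le_one
  have hHlt : H < h + 1 := by
    have h1 : vm F c h m ρ = h - H - (m ρ).im := rfl
    have h2 := hs.lt_one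
    rw [h1] at hlo
    linarith
  have hφ1 : (φ p₁).1.im = H + (m ρ).im := by
    rw [hφ, hp₁]
    simp
  have hev1 : ∀ᶠ q in 𝓝 p₁, 0 < (φ q).1.im := by
    have h1 : ContinuousAt (fun q => (φ q).1.im) p₁ :=
      (Complex.continuous_im.comp continuous_fst).continuousAt.comp hφc
    refine h1.eventually (lt_mem_nhds ?_)
    show 0 < (φ p₁).1.im
    rw [hφ1]
    linarith
  have hev2 : ∀ᶠ q : ℂ × ℂ in 𝓝 p₁, q.1.im < h + 1 := by
    have h1 : Continuous fun q : ℂ × ℂ => q.1.im := by fun_prop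
    refine h1.continuousAt.eventually (gt_mem_nhds ?_)
    rw [hp₁]
    simpa using hHlt
  have hev3 : ∀ᶠ q : ℂ × ℂ in 𝓝 p₁, q.2 ∈ ball (0:ℂ) R' :=
    continuous_snd.continuousAt.eventually (isOpen_ball.mem_nhds hρ)
  have hev4 : ∀ᶠ q in 𝓝 p₁, φ q ∈ N' := hφc.eventually (by rw [hφp]; exact hN')
  refine ⟨{q | 0 < (φ q).1.im ∧ q.1.im < h + 1 ∧ q.2 ∈ ball (0:ℂ) R' ∧ φ q ∈ N'},
    hev1.and (hev2.and (hev3.and hev4)), sh (fun ρ => -m ρ) g', ?_, ?_⟩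
  · rintro q ⟨-, -, h3, h4⟩
    refine merAt_sh hm' (ball_subset_ball hs.le₁ h3) (hg' _ ?_)
    rw [sub_neg_eq_add]
    exact h4
  · rintro q ⟨⟨h1, h2, h3, h4⟩, h5⟩
    have h6 : EqM g' (sh m G) (φ q) := by
      refine he' _ ⟨h4, mem_ball_zero_iff.1 h3, h1, ?_⟩
      obtain ⟨-, ⟨y, hy1, hy2⟩, -⟩ := h5
      have h7 := le_hgt_of_extM (hy2.mono (min_le_left y (h + 1))) (min_le_right y (h + 1))
      have h8 : q.1.im < hgt F c (c / 4) (h + 1) q.2 := (lt_min hy1 h2).trans_le h7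
      show (q.1 + m q.2).im < h - (h - hgt F c (c / 4) (h + 1) q.2 - (m q.2).im)
      rw [add_im]
      linarith
    have h7 := eqM_sh (m := fun ρ => -m ρ) (f := g') (g := sh m G) (p := q) hm'
      (ball_subset_ball hs.le₁ h3) (by
        rw [sub_neg_eq_add]
        exact h6)
    rwa [sh_neg_sh] at h7

/-- **the base facts**, for given properties of the label -/
theorem exists_base' (hN : NBd k F c h G) (hY : SysOf Y G h)
    (hsing : ∃ r > 0, ∀ ρ ∈ ball (0:ℂ) r, ∃ x : ℝ, ¬ RegT F G c h x ρ) :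
    ∃ (R C0 : ℝ) (v : ℂ → ℝ) (G' L' : ℂ × ℂ → ℂ) (m : ℂ → ℂ), Base Y h R C0 v G' L' ∧
      AnalyticOnNhd ℂ m (ball 0 R) ∧ (∀ ρ ∈ ball (0:ℂ) R, ‖m ρ‖ ≤ C0 * ‖ρ‖ ^ 2) ∧
      ∀ ρ ∈ ball (0:ℂ) R, v ρ = h - hgt F c (c / 4) (h + 1) ρ - (m ρ).im := by
  have hE := hN.toConE
  have hc := hE.pos
  have hh : 0 < h := hc.trans hE.hc
  obtain ⟨R, L, hL⟩ := exists_labY hN hY
  have hLb := asm_lbD hL
  obtain ⟨R₁, C, hRR, hm⟩ := isMean_mm hE hLb
  obtain ⟨R₂, C₂, hR₂, hRR₂, hC₂, hnv⟩ := nv_vv hN hLb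
  obtain ⟨C₃, R₃, hC₃, hR₃, hRR₃, hdep⟩ := dep_hgt hE hLb
  obtain ⟨R₄, hR₄, hsi⟩ := hsing
  obtain ⟨R₀, hs₀⟩ := exists_sm (R := R) (R₁ := R₁) (C := C) hE hL.R_pos hm.R_pos
  obtain ⟨κ, hκ⟩ := exists_qa hY.1 hL hm
  set C0 := max (max C₂ C₃) (max (max C ‖κ‖) 1) with hC0
  have c1 : C₂ ≤ C0 := (le_max_left _ _).trans (le_max_left _ _)
  have c2 : C₃ ≤ C0 := (le_max_right _ _).trans (le_max_left _ _)
  have c3 : C ≤ C0 := ((le_max_left _ _).trans (le_max_left _ _)).trans (le_max_right _ _)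
  have c4 : ‖κ‖ ≤ C0 := ((le_max_right _ _).trans (le_max_left _ _)).trans (le_max_right _ _)
  have c5 : 1 ≤ C0 := (le_max_right _ _).trans (le_max_right _ _)
  -- the radius
  obtain ⟨R', hR', d0, d2, d3, d4, d5⟩ : ∃ R' > 0, R' ≤ R₀ ∧ R' ≤ R₂ ∧ R' ≤ R₃ ∧ R' ≤ R₄ ∧
      C * R' ^ 2 ≤ c / 4 := by
    refine ⟨min (min R₀ R₂) (min (min R₃ R₄) (min 1 (c / (4 * (C + 1))))), ?_, ?_, ?_, ?_, ?_, ?_⟩
    · have := hs₀.pos
      have := hm.C_nonneg
      positivity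
    · exact (min_le_left _ _).trans (min_le_left _ _)
    · exact (min_le_left _ _).trans (min_le_right _ _)
    · exact ((min_le_right _ _).trans (min_le_left _ _)).trans (min_le_left _ _)
    · exact ((min_le_right _ _).trans (min_le_left _ _)).trans (min_le_right _ _)
    · set q := min (min R₀ R₂) (min (min R₃ R₄) (min 1 (c / (4 * (C + 1))))) with hq
      have hC0' := hm.C_nonneg
      have q0 : 0 ≤ q := by
        have := hs₀.pos
        positivity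
      have q1 : q ≤ 1 := ((min_le_right _ _).trans (min_le_right _ _)).trans (min_le_left _ _)
      have q2 : q ≤ c / (4 * (C + 1)) :=
        ((min_le_right _ _).trans (min_le_right _ _)).trans (min_le_right _ _)
      have q3 : q ^ 2 ≤ q := by nlinarith
      calc C * q ^ 2 ≤ (C + 1) * q ^ 2 := by nlinarith [sq_nonneg q]
        _ ≤ (C + 1) * (c / (4 * (C + 1))) := by
          gcongr
          exact q3.trans q2
        _ = c / 4 := by field_simp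
  have hs : Sm F c h R R₁ C R' := hs₀.mono hm.C_nonneg hR' d0
  have hnv' : NV (vm F c h (mm L)) R' C0 := NV_mono hnv d2 c1
  have hmb : ∀ ρ ∈ ball (0:ℂ) R', ρ ∈ ball (0:ℂ) R₁ := fun ρ hρ => ball_subset_ball hs.le₁ hρ
  refine ⟨R', C0, vm F c h (mm L), sh (mm L) G, sh (mm L) L, mm L, ?_,
    hm.an.mono (ball_subset_ball hs.le₁), fun ρ hρ => ?_, fun ρ _ => rfl⟩
  · refine ⟨hh, hs.pos, hs.le_one, c5, hY.1, Pool.Agent.MP_ae5b4e_an_M0.Q_an hY.1 (isOpen_St _ _),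
      qper_of hE hY, hnv', half_of hm hs, ?_, ?_, ?_, ?_, ?_, ?_, ?_, ?_, ?_, ?_, ?_, ?_, ?_⟩
    · -- merG
      intro p hp
      have hp2 : p.2 ∈ ball (0:ℂ) R' := mem_ball_zero_iff.2 hp.1
      exact merAt_sh hm.an (hmb _ hp2) (hE.merG _ (dfu_mem hL hm hs hp))
    · -- an
      intro p hp
      have hp2 : p.2 ∈ ball (0:ℂ) R' := mem_ball_zero_iff.2 hp.1
      exact an_sh hm.an (hmb _ hp2) (hL.an _ (dku_mem hE hL hm hs hp))
    · -- maps
      intro p hp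
      exact abs_lt.1 (hL.im _ (dku_mem hE hL hm hs hp))
    · -- zero
      intro t ht1 ht2
      show L (t - mm L 0, 0) = t
      rw [m_zero hm, sub_zero]
      exact hL.zero t (abs_lt.2 ⟨by linarith, ht2⟩)
    · -- even
      intro p hp
      have hp2 : p.2 ∈ ball (0:ℂ) R' := mem_ball_zero_iff.2 hp.1
      show L (p.1 - mm L (-p.2), -p.2) = L (p.1 - mm L p.2, p.2)
      rw [hm.even _ (hmb _ hp2)]
      exact hL.even _ (dku_mem hE hL hm hs hp)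
    · -- per
      intro p hp
      show L (p.1 + 1 - mm L p.2, p.2) = L (p.1 - mm L p.2, p.2) + 1
      have e : p.1 + 1 - mm L p.2 = p.1 - mm L p.2 + 1 := by ring
      rw [e]
      exact hL.per _ (dku_mem hE hL hm hs hp)
    · -- node
      intro t ρ h1 h2 h3
      have e1 := dku_mem hE hL hm hs h1
      have e2 := dku_mem hE hL hm hs h2
      have e3 := dku_mem hE hL hm hs h3
      simp only at e1 e2 e3
      show Y.node (L (t - mm L ρ, ρ)) (L (t + ρ - mm L ρ, ρ)) (L (t - ρ - mm L ρ, ρ))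
      have e4 : t + ρ - mm L ρ = t - mm L ρ + ρ := by ring
      have e5 : t - ρ - mm L ρ = t - mm L ρ - ρ := by ring
      rw [e4] at e2
      rw [e5] at e3
      rw [e4, e5]
      exact hL.node _ _ e1 e2 e3
    · -- dep
      rintro ⟨t, ρ⟩ ⟨hp1, hp2, hp3⟩
      have hp1' : ‖ρ‖ < R' := hp1
      have hp2' : 0 < t.im := hp2
      have hp3' : t.im < h - (h - hgt F c (c / 4) (h + 1) ρ - (mm L ρ).im) - |ρ.im| := hp3
      have hρ : ρ ∈ ball (0:ℂ) R' := mem_ball_zero_iff.2 hp1'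
      have h1 := norm_m_le hm hs hρ
      have h2 := abs_le.1 ((abs_im_le_norm (mm L ρ)).trans h1)
      have h3 := hdep ρ (hp1'.trans_le d3) (t - mm L ρ) (by rw [sub_im]; linarith)
        (by rw [sub_im]; linarith)
      rw [sub_im] at h3
      show (1 - C0 * ‖ρ‖ ^ 2) * (h - (h - hgt F c (c / 4) (h + 1) ρ - (mm L ρ).im) - |ρ.im| - t.im)
        ≤ h - (L (t - mm L ρ, ρ)).im
      refine le_trans ?_ h3
      have e : h - (h - hgt F c (c / 4) (h + 1) ρ - (mm L ρ).im) - |ρ.im| - t.im =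
          hgt F c (c / 4) (h + 1) ρ - |ρ.im| - (t.im - (mm L ρ).im) := by ring
      rw [e]
      have h4 : 0 ≤ hgt F c (c / 4) (h + 1) ρ - |ρ.im| - (t.im - (mm L ρ).im) := by linarith
      gcongr
    · -- qa
      intro t ht1 ht2
      rw [hκ t (abs_lt.2 ⟨by linarith, ht2⟩)]
      exact c4
    · -- eqG
      intro p hp
      have hp2 : p.2 ∈ ball (0:ℂ) R' := mem_ball_zero_iff.2 hp.1
      exact eqM_sh hm.an (hmb _ hp2) (hL.eqG _ (dku_mem hE hL hm hs hp))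
    · -- sing
      intro ρ hρ
      obtain ⟨x, hx⟩ := hsi ρ (ball_subset_ball d4 hρ)
      exact ⟨x + (mm L ρ).re, fun hr => hx (regT_of_regF hm hs hnv'.low hρ hr)⟩
    · exact gp_of hN hL hm hs hnv'.low
    · exact gpw_of hN hL hm hs hnv'.low
  · refine (hm.bd ρ (hmb ρ hρ)).trans ?_
    gcongr

/-- **the base facts** -/
theorem exists_base (hN : NBd k F c h G) (hY : SysOf Y G h) :
    ∃ (R C0 : ℝ) (v : ℂ → ℝ) (G' L' : ℂ × ℂ → ℂ) (m : ℂ → ℂ), Base Y h R C0 v G' L' ∧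
      AnalyticOnNhd ℂ m (ball 0 R) ∧ (∀ ρ ∈ ball (0:ℂ) R, ‖m ρ‖ ≤ C0 * ‖ρ‖ ^ 2) ∧
      ∀ ρ ∈ ball (0:ℂ) R, v ρ = h - hgt F c (c / 4) (h + 1) ρ - (m ρ).im := by
  obtain ⟨R, L, hL⟩ := exists_lbD hN
  obtain ⟨r, hr, -, hs⟩ := exists_sing hN hL
  exact exists_base' hN hY ⟨r, hr, fun ρ hρ => (hs ρ (mem_ball_zero_iff.1 hρ)).2.2⟩

end Pool.Agent.MP_ae5b4e_an_PB
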