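import Pool.Agent.Lib.MP_ae5b4e_an_PB.Mean

/-!
# MP_ae5b4e_an, base facts: the depth of the label
-/

noncomputable section

namespace Pool.Agent.MP_ae5b4e_an_PB

open Complex Set Filter Topology Metric MeasureTheory
open Pool.Agent.MP_ae5b4e_an_NBT
open Pool.Agent.MP_ae5b4e_an_M0 (merF)
open scoped ComplexConjugate

variable {k : ℂ → ℂ} {F G L : ℂ × ℂ → ℂ} {c h R : ℝ}

/-- A function `L` on a horizontal strip with `Im L ≤ h`, and `Im L ≤ h - N` on the lower side, and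
bounded below. -/
theorem strip_lower {L : ℂ → ℂ} {h a b N M : ℝ} (hab : a < b)
    (hd : DiffContOnCl ℂ L (im ⁻¹' Ioo a b))
    (hup : ∀ z : ℂ, z.im ∈ Icc a b → (L z).im ≤ h)
    (hlo : ∀ z : ℂ, z.im = a → (L z).im ≤ h - N) (hM : 0 ≤ N)
    {z : ℂ} (hz : z.im ∈ Icc a b) : N / (b - a) * (b - z.im) ≤ h - (L z).im := by
  have hba : 0 < b - a := sub_pos.2 hab
  set β : ℝ := N / (b - a) with hβ
  have hβ0 : 0 ≤ β := div_nonneg hM hba.le
  set W : ℂ → ℂ := fun z => -L z + (β:ℂ) * z + ((h - β * b : ℝ) : ℂ) * I with hW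
  have hWim : ∀ z, (W z).im = h - (L z).im - β * (b - z.im) := by
    intro z
    simp only [hW, add_im, neg_im, mul_im, ofReal_re, ofReal_im, I_im, I_re, mul_one, mul_zero,
      zero_mul, add_zero]
    ring
  have hnorm : ∀ z, ‖cexp (I * W z)‖ = Real.exp (-(h - (L z).im - β * (b - z.im))) := by
    intro z
    rw [norm_exp, mul_re, I_re, I_im, zero_mul, one_mul, hWim]
    congr 1
    ring
  have hWd : DiffContOnCl ℂ W (im ⁻¹' Ioo a b) := by
    refine (hd.neg.add ?_).add diffContOnCl_const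
    exact ((differentiable_const _).mul differentiable_id).diffContOnCl
  have hfd : DiffContOnCl ℂ (fun z => cexp (I * W z)) (im ⁻¹' Ioo a b) := by
    have h1 : DiffContOnCl ℂ (fun z => I * W z) (im ⁻¹' Ioo a b) := by
      exact hWd.const_smul I
    exact Differentiable.comp_diffContOnCl differentiable_exp h1
  have hN : β * (b - a) = N := by
    rw [hβ]
    field_simp
  have hle := PhragmenLindelof.horizontal_strip (a := a) (b := b) (C := 1)
    (f := fun z => cexp (I * W z)) (z := z) hfd ?_ ?_ ?_ hz.1 hz.2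
  · rw [hnorm, Real.exp_le_one_iff] at hle
    linarith
  · refine ⟨0, by positivity, 0, ?_⟩
    have hb : ∀ z ∈ (im ⁻¹' Ioo a b), ‖cexp (I * W z)‖ ≤ Real.exp N := by
      intro z hz
      have hz' : z.im ∈ Icc a b := ⟨hz.1.le, hz.2.le⟩
      rw [hnorm]
      apply Real.exp_le_exp.2
      have h1 := hup z hz'
      have h2 : β * (b - z.im) ≤ β * (b - a) :=
        mul_le_mul_of_nonneg_left (by linarith [hz'.1]) hβ0
      linarith
    refine Asymptotics.IsBigO.of_bound (Real.exp N) ?_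
    have h1 : (im ⁻¹' Ioo a b) ∈ comap (_root_.abs ∘ re) atTop ⊓ 𝓟 (im ⁻¹' Ioo a b) :=
      mem_inf_of_right (mem_principal_self _)
    filter_upwards [h1] with z hz
    simpa using hb z hz
  · intro z hz
    rw [hnorm, Real.exp_le_one_iff, hz, hN]
    have := hlo z hz
    linarith
  · intro z hz
    rw [hnorm, Real.exp_le_one_iff, hz, sub_self, mul_zero]
    have := hup z (by rw [hz]; exact ⟨hab.le, le_rfl⟩)
    linarith

variable (hE : ConE k F c h G) (hL : LbD F c h R L)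

include hE hL

/-- the depth of the label, in terms of any height of `K` -/
theorem dep_raw : ∃ C r : ℝ, 0 < C ∧ 0 < r ∧ r ≤ R ∧ ∀ ρ : ℂ, ‖ρ‖ < r → ∀ y : ℝ,
    ExtM (KF F) (c / 2) (c / 4) y ρ → ∀ s : ℂ, -(c / 4) ≤ s.im → s.im < y →
      (1 - C * ‖ρ‖ ^ 2) * (y - s.im) ≤ h - (L (s, ρ)).im := by
  have hc := hE.pos
  have hch := hE.hc
  have hh : 0 < h := hc.trans hch
  obtain ⟨C₁, r₁, hC₁, hr₁, hr₁R, hb₁⟩ := near_base hE hL
  obtain ⟨C₂, r₂, hC₂, hr₂, hr₂R, hb₂⟩ := mm_bound hE hL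
  set C : ℝ := (C₁ + C₂) / h with hCdef
  have hC0 : 0 < C := by positivity
  obtain ⟨r₃, hr₃, hr₃b⟩ : ∃ r₃ : ℝ, 0 < r₃ ∧ C₁ * r₃ ^ 2 ≤ h := by
    refine ⟨Real.sqrt (h / C₁), Real.sqrt_pos.2 (by positivity), ?_⟩
    rw [Real.sq_sqrt (by positivity)]
    field_simp
    exact le_rfl
  refine ⟨C, min r₁ (min r₂ r₃), hC0, lt_min hr₁ (lt_min hr₂ hr₃), (min_le_left _ _).trans hr₁R, ?_⟩
  intro ρ hρ y hy s hs1 hs2
  have hρ1 : ‖ρ‖ < r₁ := hρ.trans_le (min_le_left _ _)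
  have hρ2 : ‖ρ‖ < r₂ := hρ.trans_le ((min_le_right _ _).trans (min_le_left _ _))
  have hρ3 : ‖ρ‖ < r₃ := hρ.trans_le ((min_le_right _ _).trans (min_le_right _ _))
  have hρR : ρ ∈ ball (0:ℂ) R := mem_ball_zero_iff.2 (hρ1.trans_le hr₁R)
  have hyle : y ≤ h + C₂ * ‖ρ‖ ^ 2 := by
    have h1 := hK_le hE hL hρR hy
    have h2 := hb₂ ρ hρ2
    have h3 := (abs_le.1 (Complex.abs_im_le_norm (mm L ρ))).1
    linarith
  have hN0 : 0 ≤ h + c / 4 - C₁ * ‖ρ‖ ^ 2 := by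
    have h1 : C₁ * ‖ρ‖ ^ 2 ≤ C₁ * r₃ ^ 2 := by
      have : ‖ρ‖ ^ 2 ≤ r₃ ^ 2 := pow_le_pow_left₀ (norm_nonneg _) hρ3.le 2
      exact mul_le_mul_of_nonneg_left this hC₁.le
    linarith
  -- the strip estimate up to a height `b < y`
  have key : ∀ b : ℝ, s.im < b → b < y →
      (h + c / 4 - C₁ * ‖ρ‖ ^ 2) / (b - -(c / 4)) * (b - s.im) ≤ h - (L (s, ρ)).im := by
    intro b hb1 hb2
    have hmem : ∀ z : ℂ, z.im ∈ Icc (-(c / 4)) b → (z, ρ) ∈ DK F c R := by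
      intro z hz
      obtain ⟨-, -, s3, -⟩ := slice_DK hE hL.R_le hρR
      obtain ⟨-, -, h3⟩ := s3 (-(((c / 4 : ℝ) : ℂ) * I)) (by
        rw [neg_im, im_ofReal_mul, I_im, mul_one, abs_neg, abs_of_pos (by linarith)]
        linarith)
      obtain ⟨y', h4, h5⟩ := h3
      refine ⟨hρR, ⟨y, by show z.im < y; linarith [hz.2], hy⟩, y', ?_, h5⟩
      have h6 : -(-(((c / 4 : ℝ) : ℂ) * I)).im < y' := h4
      simp at h6
      show -z.im < y'
      linarith [hz.1]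
    have hclos : closure (im ⁻¹' Ioo (-(c / 4)) b) ⊆ im ⁻¹' Icc (-(c / 4)) b :=
      closure_minimal (preimage_mono Ioo_subset_Icc_self)
        (isClosed_Icc.preimage Complex.continuous_im)
    have hdc : DiffContOnCl ℂ (fun z => L (z, ρ)) (im ⁻¹' Ioo (-(c / 4)) b) := by
      have h1 : ∀ z : ℂ, z.im ∈ Icc (-(c / 4)) b → AnalyticAt ℂ (fun z : ℂ => L (z, ρ)) z :=
        fun z hz => AnalyticAt.fun_comp (g := L) (f := fun s : ℂ => (s, ρ)) (hL.an (z, ρ) (hmem z hz))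
          (analyticAt_id.prod analyticAt_const)
      refine ⟨fun z hz => ?_, fun z hz => ?_⟩
      · exact (h1 z ⟨hz.1.le, hz.2.le⟩).differentiableAt.differentiableWithinAt
      · exact (h1 z (hclos hz)).continuousAt.continuousWithinAt
    refine strip_lower (L := fun z => L (z, ρ)) (M := 0) (by linarith) hdc ?_ ?_ hN0 ⟨hs1, hb1.le⟩
    · intro z hz
      exact (abs_lt.1 (hL.im _ (hmem z hz))).2.le
    · intro z hz
      have h1 := hb₁ z ρ (by rw [hz, abs_neg, abs_of_pos (by linarith)]) hρ1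
      have h2 := (abs_le.1 (Complex.abs_im_le_norm (L (z, ρ) - z))).2
      rw [sub_im, hz] at h2
      linarith
  -- the limit `b → y`
  have hlim : (h + c / 4 - C₁ * ‖ρ‖ ^ 2) / (y - -(c / 4)) * (y - s.im) ≤ h - (L (s, ρ)).im := by
    have hcontA : ContinuousAt (fun b : ℝ => (h + c / 4 - C₁ * ‖ρ‖ ^ 2) / (b - -(c / 4)) *
        (b - s.im)) y := by
      refine (continuousAt_const.div (by fun_prop) ?_).mul (by fun_prop)
      linarith
    have h1 : Tendsto (fun b : ℝ => (h + c / 4 - C₁ * ‖ρ‖ ^ 2) / (b - -(c / 4)) * (b - s.im))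
        (𝓝[<] y) (𝓝 ((h + c / 4 - C₁ * ‖ρ‖ ^ 2) / (y - -(c / 4)) * (y - s.im))) :=
      hcontA.tendsto.mono_left nhdsWithin_le_nhds
    refine le_of_tendsto h1 ?_
    filter_upwards [Ioo_mem_nhdsLT hs2] with b hb
    exact key b hb.1 hb.2
  refine le_trans ?_ hlim
  refine mul_le_mul_of_nonneg_right ?_ (by linarith)
  have hpos : 0 < y - -(c / 4) := by linarith
  rw [le_div_iff₀ hpos]
  have hx : 0 ≤ ‖ρ‖ ^ 2 := by positivity
  have e1 : C * h = C₁ + C₂ := by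
    rw [hCdef]
    field_simp
  rcases le_or_gt (1 - C * ‖ρ‖ ^ 2) 0 with h9 | h9
  · exact (mul_nonpos_of_nonpos_of_nonneg h9 hpos.le).trans hN0
  · have h10 : (1 - C * ‖ρ‖ ^ 2) * (y - -(c / 4)) ≤
        (1 - C * ‖ρ‖ ^ 2) * (h + C₂ * ‖ρ‖ ^ 2 + c / 4) :=
      mul_le_mul_of_nonneg_left (by linarith) h9.le
    refine h10.trans ?_
    have e2 : (1 - C * ‖ρ‖ ^ 2) * (h + C₂ * ‖ρ‖ ^ 2 + c / 4) =
        h + C₂ * ‖ρ‖ ^ 2 + c / 4 - (C * h) * ‖ρ‖ ^ 2 - C * ‖ρ‖ ^ 2 * (C₂ * ‖ρ‖ ^ 2 + c / 4) := by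
      ring
    rw [e2, e1]
    have h11 : 0 ≤ C * ‖ρ‖ ^ 2 * (C₂ * ‖ρ‖ ^ 2 + c / 4) := by positivity
    nlinarith

end Pool.Agent.MP_ae5b4e_an_PB
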