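import Pool.Agent.Lib.MP_ae5b4e_an_PB.Sh
import Pool.Agent.Lib.MP_ae5b4e_an_GP.Base

/-!
# MP_ae5b4e_an, unbounded case, part PB: the field G' and the period of the potential
-/

noncomputable section

namespace Pool.Agent.MP_ae5b4e_an_PB

open Complex Set Filter Topology Metric
open Pool.Agent.MP_ae5b4e_an_NBT
open Pool.Agent.MP_ae5b4e_an_NB2 (Sys)
open Pool.Agent.MP_ae5b4e_an_NB4H (SysOf nf)
open Pool.Agent.MP_ae5b4e_an_GP
open scoped ComplexConjugate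

variable {k : ℂ → ℂ} {F G : ℂ × ℂ → ℂ} {c h : ℝ} {Y : Sys}
  {R R₁ C R' : ℝ} {m : ℂ → ℂ} {L : ℂ × ℂ → ℂ}

theorem qper_of (hE : ConE k F c h G) (hY : SysOf Y G h) :
    ∀ t ∈ St (-h) h, Y.Q (t + 1) = Y.Q t := by
  intro t ht
  obtain ⟨ε, hε, hp⟩ := (Pool.Agent.MP_ae5b4e_an_NB4H.per_of hE hY).ex
  have hε0 : ε ≠ 0 := by
    rintro rfl
    simp at hε
  have ht1 : t + 1 ∈ St (-h) h := by
    rw [mem_St] at ht ⊢
    simpa using ht
  have hev : ∀ᶠ s in 𝓝 t, s ∈ St (-h) h := (isOpen_St _ _).mem_nhds ht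
  have key : ∀ y y' : ℂ → ℂ, HasDerivAt y' (-(Y.Q (t + 1) * y (t + 1))) (t + 1) →
      HasDerivAt y' (-(Y.Q t * y t)) t → (∀ z ∈ St (-h) h, y' (z + 1) = ε * y' z) →
      y (t + 1) = ε * y t → (Y.Q (t + 1) - Y.Q t) * y t = 0 := by
    intro y y' h1 h2 h3 h4
    have h5 : HasDerivAt (fun s => y' (s + 1)) (-(Y.Q (t + 1) * y (t + 1))) t :=
      h1.comp_add_const t 1
    have h6 : HasDerivAt (fun s => ε * y' s) (ε * -(Y.Q t * y t)) t := h2.const_mul ε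
    have h7 : (fun s => y' (s + 1)) =ᶠ[𝓝 t] fun s => ε * y' s := by
      filter_upwards [hev] with s hs
      exact h3 s hs
    have h8 := h5.unique (h6.congr_of_eventuallyEq h7)
    rw [h4] at h8
    have h9 : ε * ((Y.Q (t + 1) - Y.Q t) * y t) = 0 := by linear_combination -h8
    exact (mul_eq_zero.1 h9).resolve_left hε0
  have k1 := key Y.y1 Y.y1' (hY.1.d1' _ ht1) (hY.1.d1' _ ht) (fun z hz => (hp z hz).2.2.1)
    (hp t ht).1
  have k2 := key Y.y2 Y.y2' (hY.1.d2' _ ht1) (hY.1.d2' _ ht) (fun z hz => (hp z hz).2.2.2)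
    (hp t ht).2.1
  have hw := hY.1.wr t ht
  linear_combination (Y.y2' t) * k1 - (Y.y1' t) * k2 - (Y.Q (t + 1) - Y.Q t) * hw

/-- regularity on the line, in the sense of GP -/
theorem topF_of_regF (hE : ConE k F c h G) (hm : IsMean m R₁ C)
    (hs : Sm F c h R R₁ C R') {c' x H : ℝ} (hc' : 0 < c') (hcR : c' < R')
    (hT : Top F c H c') (hH : H = h - vm F c h m c') {μ : ℝ} (hμ : m c' = μ)
    (hr : RegF (vm F c h m) h R' (sh m G) ((x:ℂ) + (H:ℂ) * I, (c':ℂ))) :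
    TopF F G c H c' (x - μ) := by
  have hc := hE.pos
  have hH0 : 0 < H := hc.trans hT.hcH
  obtain ⟨N, hN, g, hg, hge⟩ := hr
  have hm' : AnalyticOnNhd ℂ (fun ρ => -m ρ) (ball 0 R₁) := hm.an.neg
  have hcm : (c':ℂ) ∈ ball (0:ℂ) R' := by
    rw [mem_ball_zero_iff, Complex.norm_real, Real.norm_of_nonneg hc'.le]
    exact hcR
  have hcm₁ := ball_subset_ball hs.le₁ hcm
  -- the back shift
  set φ : ℂ × ℂ → ℂ × ℂ := fun q => (q.1 + m q.2, q.2) with hφ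
  set p₁ : ℂ × ℂ := (((x - μ : ℝ) : ℂ) + (H:ℂ) * I, (c':ℂ)) with hp₁
  have hφp : φ p₁ = ((x:ℂ) + (H:ℂ) * I, (c':ℂ)) := by
    rw [hφ, hp₁]
    simp only [hμ, Prod.mk.injEq, and_true]
    push_cast
    ring
  have hφc : ContinuousAt φ p₁ := by
    refine ContinuousAt.prodMk (continuousAt_fst.add ?_) continuousAt_snd
    exact ContinuousAt.comp (g := m) (f := fun q : ℂ × ℂ => q.2) (hm.an _ hcm₁).continuousAt
      continuousAt_snd
  have h1 : ∀ᶠ q in 𝓝 p₁, φ q ∈ N ∧ q.2 ∈ ball (0:ℂ) R' :=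
    (hφc.eventually (by rw [hφp]; exact hN)).and
      (continuous_snd.continuousAt.eventually (isOpen_ball.mem_nhds hcm))
  obtain ⟨ε, hε, hb⟩ := Metric.eventually_nhds_iff_ball.1 h1
  have hb' : ∀ q ∈ ball (((x - μ : ℝ) : ℂ) + (H:ℂ) * I) ε ×ˢ ball (c' : ℂ) ε,
      φ q ∈ N ∧ q.2 ∈ ball (0:ℂ) R' := by
    rintro q ⟨hq1, hq2⟩
    refine hb q ?_
    rw [mem_ball, Prod.dist_eq, max_lt_iff]
    exact ⟨hq1, hq2⟩
  set η := min (ε / 2) (H / 2) with hη
  have hη0 : 0 < η := by positivity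
  have hηε : η < ε := (min_le_left _ _).trans_lt (by linarith)
  have hηH : η < H := (min_le_right _ _).trans_lt (by linarith)
  refine topF_of_point (η₁ := η) hE hT hε hη0 hηε hηH (g := sh (fun ρ => -m ρ) g) ?_ ?_
  · intro q hq
    obtain ⟨hq1, hq2⟩ := hb' q hq
    refine merAt_sh hm' (ball_subset_ball hs.le₁ hq2) (hg _ ?_)
    rw [sub_neg_eq_add]
    exact hq1
  · have hq : ((((x - μ : ℝ) : ℂ) + (H:ℂ) * I - (η:ℂ) * I, (c':ℂ)) : ℂ × ℂ) ∈
        ball (((x - μ : ℝ) : ℂ) + (H:ℂ) * I) ε ×ˢ ball (c' : ℂ) ε := by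
      refine ⟨?_, mem_ball_self hε⟩
      show dist (((x - μ : ℝ) : ℂ) + (H:ℂ) * I - (η:ℂ) * I) (((x - μ : ℝ) : ℂ) + (H:ℂ) * I) < ε
      rw [dist_eq_norm, sub_sub_cancel_left, norm_neg, norm_mul, norm_I, mul_one,
        Complex.norm_real, Real.norm_of_nonneg hη0.le]
      exact hηε
    obtain ⟨hq1, hq2⟩ := hb' _ hq
    have h2 : EqM g (sh m G) (φ (((x - μ : ℝ) : ℂ) + (H:ℂ) * I - (η:ℂ) * I, (c':ℂ))) := by
      refine hge _ ⟨hq1, ?_, ?_, ?_⟩
      · show ‖(c':ℂ)‖ < R'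
        rwa [← mem_ball_zero_iff]
      · show 0 < (((x - μ : ℝ) : ℂ) + (H:ℂ) * I - (η:ℂ) * I + m c').im
        rw [hμ]
        simp
        linarith
      · show (((x - μ : ℝ) : ℂ) + (H:ℂ) * I - (η:ℂ) * I + m c').im < h - vm F c h m c'
        rw [hμ, ← hH]
        simp
        linarith
    have h3 := eqM_sh (m := fun ρ => -m ρ) (f := g) (g := sh m G)
      (p := (((x - μ : ℝ) : ℂ) + (H:ℂ) * I - (η:ℂ) * I, (c':ℂ))) hm' hcm₁ (by
        rw [sub_neg_eq_add]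
        exact h2)
    rwa [sh_neg_sh] at h3

theorem gp_of (hN : NBd k F c h G) (hL : LabY Y F G c h R L) (hm : IsMean m R₁ C)
    (hs : Sm F c h R R₁ C R') (hlow : ∀ ρ ∈ ball (0:ℂ) R', -|ρ.im| ≤ vm F c h m ρ) :
    ∀ c' : ℝ, 0 < c' → c' < R' → Irrational c' → ∀ x : ℝ,
    ¬ (RegF (vm F c h m) h R' (sh m G) ((x:ℂ) + ((h - vm F c h m c' : ℝ) : ℂ) * I, (c':ℂ)) ∧
      RegF (vm F c h m) h R' (sh m G)
        (((x - c' : ℝ) : ℂ) + ((h - vm F c h m c' : ℝ) : ℂ) * I, (c':ℂ))) := by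
  rintro c' hc' hcR hirr x ⟨h1, h2⟩
  have hE := hN.toConE
  have hcm : (c':ℂ) ∈ ball (0:ℂ) R' := by
    rw [mem_ball_zero_iff, Complex.norm_real, Real.norm_of_nonneg hc'.le]
    exact hcR
  have him : (m c').im = 0 := hm.real c' (by
    rw [abs_of_pos hc']
    exact hcR.trans_le hs.le₁)
  have hμ : m c' = ((m c').re : ℂ) := by
    apply Complex.ext
    · simp
    · simpa using him
  have hH : hgt F c (c / 4) (h + 1) c' = h - vm F c h m c' := by
    unfold vm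
    rw [him]
    ring
  have hlo := hlow _ hcm
  simp only [Complex.ofReal_im, abs_zero, neg_zero] at hlo
  have hT : Top F c (hgt F c (c / 4) (h + 1) c') c' :=
    top_of_hgt hc' (ball_subset_ball (hs.le.trans hL.R_le) hcm) (hs.hg _ hcm).1
      (by rw [hH]; linarith)
  rw [← hH] at h1 h2
  have r1 := topF_of_regF hE hm hs hc' hcR hT hH hμ h1
  have r2 := topF_of_regF hE hm hs hc' hcR hT hH hμ h2
  refine gp_irr hN hT hirr (x - (m c').re) ⟨r1, ?_⟩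
  have e : x - (m c').re - c' = x - c' - (m c').re := by ring
  rw [e]
  exact r2

theorem gpw_of (hN : NBd k F c h G) (hL : LabY Y F G c h R L) (hm : IsMean m R₁ C)
    (hs : Sm F c h R R₁ C R') (hlow : ∀ ρ ∈ ball (0:ℂ) R', -|ρ.im| ≤ vm F c h m ρ) :
    ∀ c' : ℝ, 0 < c' → c' < R' → ∀ a : ℝ, ¬ ∀ x : ℝ, |x - a| ≤ c' →
      RegF (vm F c h m) h R' (sh m G) ((x:ℂ) + ((h - vm F c h m c' : ℝ) : ℂ) * I, (c':ℂ)) := by
  rintro c' hc' hcR a h1
  have hE := hN.toConE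
  have hcm : (c':ℂ) ∈ ball (0:ℂ) R' := by
    rw [mem_ball_zero_iff, Complex.norm_real, Real.norm_of_nonneg hc'.le]
    exact hcR
  have him : (m c').im = 0 := hm.real c' (by
    rw [abs_of_pos hc']
    exact hcR.trans_le hs.le₁)
  have hμ : m c' = ((m c').re : ℂ) := by
    apply Complex.ext
    · simp
    · simpa using him
  have hH : hgt F c (c / 4) (h + 1) c' = h - vm F c h m c' := by
    unfold vm
    rw [him]
    ring
  have hlo := hlow _ hcm
  simp only [Complex.ofReal_im, abs_zero, neg_zero] at hlo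
  have hT : Top F c (hgt F c (c / 4) (h + 1) c') c' :=
    top_of_hgt hc' (ball_subset_ball (hs.le.trans hL.R_le) hcm) (hs.hg _ hcm).1
      (by rw [hH]; linarith)
  refine gp_window hN hT (a := a - (m c').re) le_rfl fun x hx => ?_
  have h2 := h1 (x + (m c').re) (by
    have e : x + (m c').re - a = x - (a - (m c').re) := by ring
    rwa [e])
  rw [← hH] at h2
  have r1 := topF_of_regF hE hm hs hc' hcR hT hH hμ h2
  rwa [add_sub_cancel_right] at r1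

end Pool.Agent.MP_ae5b4e_an_PB
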