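import Pool.Agent.Lib.MP_ae5b4e_an_NB4H.LabX
import Pool.Agent.Lib.MP_ae5b4e_an_NBT.CliA
import Pool.Agent.Lib.MP_ae5b4e_an_NBT.DomE

/-!
# MP_ae5b4e_an, unbounded case, part PB: the label with all its properties on the whole domain
-/

noncomputable section

namespace Pool.Agent.MP_ae5b4e_an_PB

open Complex Set Filter Topology Metric
open Pool.Agent.MP_ae5b4e_an_NBT
open Pool.Agent.MP_ae5b4e_an_NB2 (Sys)
open Pool.Agent.MP_ae5b4e_an_NB4H (SysOf exists_labX nf)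
open scoped ComplexConjugate

variable {k : ℂ → ℂ} {F G : ℂ × ℂ → ℂ} {c h : ℝ} {Y : Sys}

/-- `F` is meromorphic on the base -/
private theorem nd_merF (hE : ConE k F c h G) : Mer F (St (-c) c ×ˢ ball 0 (c / 4)) := by
  intro p hp
  have hc := hE.pos
  have hp' : p ∈ St (-c) c ×ˢ ball (0:ℂ) c := ⟨hp.1, ball_subset_ball (by linarith) hp.2⟩
  exact ⟨F, fun _ => 1, hE.an p hp', den_one p, Eventually.of_forall fun q _ => by simp⟩

/-- `K` is meromorphic on the base -/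
private theorem nd_merKF (hE : ConE k F c h G) :
    Mer (KF F) (St (-(c / 2)) (c / 2) ×ˢ ball 0 (c / 4)) :=
  mer_KF (by have := hE.pos; linarith) (nd_merF hE)

/-- the points of the domain of `K` with both neighbours in the domain -/
def ND (F : ℂ × ℂ → ℂ) (c R : ℝ) : Set (ℂ × ℂ) :=
  {p | p ∈ DK F c R ∧ (p.1 + p.2, p.2) ∈ DK F c R ∧ (p.1 - p.2, p.2) ∈ DK F c R}

theorem isOpen_ND (F : ℂ × ℂ → ℂ) (c R : ℝ) : IsOpen (ND F c R) := by
  have h := isOpen_Dom (KF F) (c / 2) (c / 4) R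
  refine h.inter (IsOpen.inter ?_ ?_)
  · exact h.preimage (f := fun p : ℂ × ℂ => ((p.1 + p.2, p.2) : ℂ × ℂ)) (by fun_prop)
  · exact h.preimage (f := fun p : ℂ × ℂ => ((p.1 - p.2, p.2) : ℂ × ℂ)) (by fun_prop)

theorem isPreconnected_ND (hE : ConE k F c h G) {R : ℝ} (hR0 : 0 < R) (hR : R ≤ c / 4) :
    IsPreconnected (ND F c R) := by
  have hc := hE.pos
  have hbase : ∀ ρ ∈ ball (0:ℂ) R, ∀ t : ℂ, |t.im| < c / 4 → (t, ρ) ∈ ND F c R := by
    intro ρ hρ t ht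
    obtain ⟨-, -, h3, -⟩ := slice_Dom (f := KF F) (by linarith : 0 < c / 2) hR (nd_merKF hE) hρ
    have h4 : |ρ.im| < c / 4 :=
      (abs_im_le_norm ρ).trans_lt ((mem_ball_zero_iff.1 hρ).trans_le hR)
    refine ⟨h3 t (by linarith), h3 (t + ρ) ?_, h3 (t - ρ) ?_⟩
    · rw [add_im]
      calc |t.im + ρ.im| ≤ |t.im| + |ρ.im| := abs_add_le _ _
        _ < c / 2 := by linarith
    · rw [sub_im]
      calc |t.im - ρ.im| ≤ |t.im| + |ρ.im| := abs_sub _ _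
        _ < c / 2 := by linarith
  have hB : IsPreconnected (St (-(c / 4)) (c / 4) ×ˢ ball (0:ℂ) R) :=
    ((convex_St _ _).prod (convex_ball _ _)).isPreconnected
  have hBs : St (-(c / 4)) (c / 4) ×ˢ ball (0:ℂ) R ⊆ ND F c R := by
    rintro p ⟨h1, h2⟩
    exact hbase p.2 h2 p.1 (abs_lt.2 ⟨h1.1, h1.2⟩)
  refine isPreconnected_of_forall ((0:ℂ), (0:ℂ)) ?_
  rintro ⟨t, ρ⟩ hp
  have hρ : ρ ∈ ball (0:ℂ) R := hp.1.1
  obtain ⟨h1, -, -, -⟩ := slice_Dom (f := KF F) (by linarith : 0 < c / 2) hR (nd_merKF hE) hρ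
  have hconv : Convex ℝ {t | (t, ρ) ∈ ND F c R} := by
    have e : {t | (t, ρ) ∈ ND F c R} = {t | (t, ρ) ∈ DK F c R} ∩
        ((fun t : ℂ => t + ρ) ⁻¹' {t | (t, ρ) ∈ DK F c R} ∩
        (fun t : ℂ => t - ρ) ⁻¹' {t | (t, ρ) ∈ DK F c R}) := rfl
    rw [e]
    refine h1.inter (Convex.inter ?_ ?_)
    · exact h1.translate_preimage_left ρ
    · have h2 := h1.translate_preimage_left (-ρ)
      have e2 : (fun t : ℂ => t - ρ) = fun t => t + -ρ := by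
        funext t
        ring
      rw [e2]
      exact h2
  have hS : IsPreconnected ((fun s : ℂ => (s, ρ)) '' {t | (t, ρ) ∈ ND F c R}) :=
    hconv.isPreconnected.image _ (by fun_prop)
  have h0m : ((0:ℂ), ρ) ∈ St (-(c / 4)) (c / 4) ×ˢ ball (0:ℂ) R :=
    ⟨⟨by show -(c / 4) < (0:ℂ).im; simp [hc], by show (0:ℂ).im < c / 4; simp [hc]⟩, hρ⟩
  refine ⟨(fun s : ℂ => (s, ρ)) '' {t | (t, ρ) ∈ ND F c R} ∪
    St (-(c / 4)) (c / 4) ×ˢ ball (0:ℂ) R, ?_, ?_, ?_, ?_⟩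
  · apply union_subset _ hBs
    rintro _ ⟨s, hs, rfl⟩
    exact hs
  · right
    exact ⟨⟨by show -(c / 4) < (0:ℂ).im; simp [hc], by show (0:ℂ).im < c / 4; simp [hc]⟩,
      mem_ball_self hR0⟩
  · left
    exact ⟨t, hp, rfl⟩
  · exact hS.union ((0:ℂ), ρ) ⟨0, hBs h0m, rfl⟩ h0m hB

/-- the label on the domain of `K`, with all its properties -/
structure LabY (Y : Sys) (F G : ℂ × ℂ → ℂ) (c h R : ℝ) (L : ℂ × ℂ → ℂ) : Prop where
  R_pos : 0 < R
  R_le : R ≤ c / 4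
  an : AnalyticOnNhd ℂ L (DK F c R)
  im : ∀ p ∈ DK F c R, |(L p).im| < h
  per : ∀ p ∈ DK F c R, L (p.1 + 1, p.2) = L p + 1
  even : ∀ p ∈ DK F c R, L (p.1, -p.2) = L p
  refl : ∀ p ∈ DK F c R, L (conj p.1, conj p.2) = conj (L p)
  eqG : ∀ p ∈ DK F c R, EqM G (fun q => Y.y2 (L q) / Y.y1 (L q)) p
  zero : ∀ t : ℂ, |t.im| < h → L (t, 0) = t
  mem0 : ∀ t : ℂ, |t.im| < h → (t, (0:ℂ)) ∈ DK F c R
  node : ∀ t ρ : ℂ, (t, ρ) ∈ DK F c R → (t + ρ, ρ) ∈ DK F c R → (t - ρ, ρ) ∈ DK F c R →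
    Y.node (L (t, ρ)) (L (t + ρ, ρ)) (L (t - ρ, ρ))

/-- **the label** for a given fundamental system, with the node relation and `G = F_0 ∘ L` on the
whole domain -/
theorem exists_labY (hN : NBd k F c h G) (hY : SysOf Y G h) :
    ∃ (R : ℝ) (L : ℂ × ℂ → ℂ), LabY Y F G c h R L := by
  have hE := hN.toConE
  have hc := hE.pos
  have hh : 0 < h := hc.trans hE.hc
  obtain ⟨R, L, hR0, hR, hLan, hLp, hLz, hLm, hEq, hLn⟩ := exists_labX hN hY
  have hop := isOpen_St (-h) h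
  have hLS : ∀ p ∈ DK F c R, L p ∈ St (-h) h := fun p hp => abs_lt.1 (hLp p hp).1
  have hsubK : DK F c R ⊆ DK F c (c / 4) := fun p hp => ⟨ball_subset_ball hR hp.1, hp.2⟩
  have h0S : (0:ℂ) ∈ St (-h) h := by
    rw [mem_St]
    simpa using hh
  have hpre : IsPreconnected (DK F c R) :=
    isPreconnected_Dom (by linarith : 0 < c / 2) hR (nd_merKF hE)
  -- `G = F_0 ∘ L`
  have hmy : Mer (fun q => Y.y2 (L q) / Y.y1 (L q)) (DK F c R) := by
    intro p hp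
    refine MerAt.div (merAt_of_analyticAt ?_) (merAt_of_analyticAt ?_)
    · exact (Sys.an_y2 hY.1 hop _ (hLS p hp)).fun_comp (hLan p hp)
    · exact (Sys.an_y1 hY.1 hop _ (hLS p hp)).fun_comp (hLan p hp)
  have hmG : Mer G (DK F c R) := fun p hp => hE.merG p (DK_shift hE.toCon (hsubK hp)).1
  have hE1 := Mer.eqM hpre hmG hmy (hLm 0 (by simpa using hh)) (hEq 0 h0S)
  refine ⟨R, L, hR0, hR, hLan, fun p hp => (hLp p hp).1, fun p hp => (hLp p hp).2.1,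
    fun p hp => (hLp p hp).2.2.1, fun p hp => (hLp p hp).2.2.2, hE1, hLz, hLm, ?_⟩
  -- the node relation
  set Φ : ℂ × ℂ → ℂ := fun p => nf Y (L (p.1 - p.2, p.2)) (L p) (L (p.1 + p.2, p.2)) with hΦ
  have hΦan : AnalyticOnNhd ℂ Φ (ND F c R) := by
    rintro p ⟨h1, h2, h3⟩
    have a1 := hLan p h1
    have a2 : AnalyticAt ℂ (fun p : ℂ × ℂ => L (p.1 + p.2, p.2)) p :=
      AnalyticAt.fun_comp (g := L) (f := fun p : ℂ × ℂ => ((p.1 + p.2, p.2) : ℂ × ℂ))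
        (hLan _ h2) ((analyticAt_fst.add analyticAt_snd).prod analyticAt_snd)
    have a3 : AnalyticAt ℂ (fun p : ℂ × ℂ => L (p.1 - p.2, p.2)) p :=
      AnalyticAt.fun_comp (g := L) (f := fun p : ℂ × ℂ => ((p.1 - p.2, p.2) : ℂ × ℂ))
        (hLan _ h3) ((analyticAt_fst.sub analyticAt_snd).prod analyticAt_snd)
    have m1 := hLS _ h1
    have m2 := hLS _ h2
    have m3 := hLS _ h3
    exact ((Sys.an_c hY.1 hop a2 a1 m2 m1).mul (Sys.an_s hY.1 hop a3 a1 m3 m1)).add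
      ((Sys.an_c hY.1 hop a3 a1 m3 m1).mul (Sys.an_s hY.1 hop a2 a1 m2 m1))
  have h0N : ((0:ℂ), (0:ℂ)) ∈ ND F c R := by
    have := hLm 0 (by simpa using hh)
    exact ⟨this, by simpa using this, by simpa using this⟩
  have hz := hΦan.eqOn_zero_of_preconnected_of_eventuallyEq_zero (isPreconnected_ND hE hR0 hR)
    h0N (hLn 0 h0S)
  intro t ρ h1 h2 h3
  have h4 : Φ (t, ρ) = 0 := hz ⟨h1, h2, h3⟩
  exact h4

end Pool.Agent.MP_ae5b4e_an_PB
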