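import Pool.Agent.Lib.MP_ae5b4e_an_PB.Defs
import Pool.Agent.Lib.MP_ae5b4e_an_PB.Node
import Pool.Agent.Lib.MP_ae5b4e_an_M0.Bd

/-!
# MP_ae5b4e_an, unbounded case, part PB: the shift by the mean of the label
-/

noncomputable section

namespace Pool.Agent.MP_ae5b4e_an_PB

open Complex Set Filter Topology Metric
open Pool.Agent.MP_ae5b4e_an_NBT
open Pool.Agent.MP_ae5b4e_an_NB2 (Sys)
open Pool.Agent.MP_ae5b4e_an_NB4H (SysOf nf)
open Pool.Agent.MP_ae5b4e_an_N5 (NV)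
open Pool.Agent.Lib.MP_ae5b4e_an_LL (SubH)
open scoped ComplexConjugate

variable {k : ℂ → ℂ} {F G : ℂ × ℂ → ℂ} {c h : ℝ} {Y : Sys}

/-- the properties of the mean of the label which are used -/
structure IsMean (m : ℂ → ℂ) (R₁ C : ℝ) : Prop where
  R_pos : 0 < R₁
  C_nonneg : 0 ≤ C
  an : AnalyticOnNhd ℂ m (ball 0 R₁)
  even : ∀ ρ ∈ ball (0:ℂ) R₁, m (-ρ) = m ρ
  real : ∀ x : ℝ, |x| < R₁ → (m x).im = 0
  bd : ∀ ρ ∈ ball (0:ℂ) R₁, ‖m ρ‖ ≤ C * ‖ρ‖ ^ 2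

/-- composition with `t ↦ t - m ρ` -/
def sh (m : ℂ → ℂ) (f : ℂ × ℂ → ℂ) (p : ℂ × ℂ) : ℂ := f (p.1 - m p.2, p.2)

/-- the normalised function `h - h_F` -/
def vm (F : ℂ × ℂ → ℂ) (c h : ℝ) (m : ℂ → ℂ) (ρ : ℂ) : ℝ :=
  h - hgt F c (c / 4) (h + 1) ρ - (m ρ).im

/-! ### The local shear -/

/-- a homeomorphism of the plane which is `(t, ρ) ↦ (t - m ρ, ρ)` for `‖ρ‖ < r` -/
theorem exists_shear {m : ℂ → ℂ} {R₁ r : ℝ} (hm : AnalyticOnNhd ℂ m (ball 0 R₁)) (hr0 : 0 < r)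
    (hr : r < R₁) : ∃ e : (ℂ × ℂ) ≃ₜ (ℂ × ℂ), ∀ p : ℂ × ℂ, p.2 ∈ ball (0:ℂ) r →
      e p = (p.1 - m p.2, p.2) ∧ AnalyticAt ℂ e p := by
  set ret : ℂ → ℂ := fun ρ => ((r / max r ‖ρ‖ : ℝ) : ℂ) * ρ with hret
  have hmax : ∀ ρ : ℂ, 0 < max r ‖ρ‖ := fun ρ => hr0.trans_le (le_max_left _ _)
  have hretc : Continuous ret := by
    refine (Complex.continuous_ofReal.comp ?_).mul continuous_id
    exact continuous_const.div (continuous_const.max continuous_norm) fun ρ => (hmax ρ).ne'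
  have hretm : ∀ ρ, ret ρ ∈ ball (0:ℂ) R₁ := by
    intro ρ
    rw [mem_ball_zero_iff]
    have h1 : ‖ret ρ‖ ≤ r := by
      rw [hret]
      simp only [norm_mul, Complex.norm_real, Real.norm_eq_abs]
      rw [abs_of_nonneg (div_nonneg hr0.le (hmax ρ).le), div_mul_eq_mul_div,
        div_le_iff₀ (hmax ρ)]
      gcongr
      exact le_max_right _ _
    linarith
  have hrete : ∀ ρ ∈ ball (0:ℂ) r, ret ρ = ρ := by
    intro ρ hρ
    rw [mem_ball_zero_iff] at hρ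
    rw [hret]
    simp only
    rw [max_eq_left hρ.le, div_self hr0.ne']
    simp
  set mt : ℂ → ℂ := fun ρ => -m (ret ρ) with hmt
  have hmtc : Continuous mt := (hm.continuousOn.comp_continuous hretc hretm).neg
  refine ⟨shear mt hmtc, fun p hp => ⟨?_, ?_⟩⟩
  · rw [shear_apply, hmt]
    simp only [hrete p.2 hp, sub_eq_add_neg]
  · have hpR : p.2 ∈ ball (0:ℂ) R₁ := ball_subset_ball hr.le hp
    have h1 : AnalyticAt ℂ (fun q : ℂ × ℂ => (q.1 - m q.2, q.2)) p := by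
      refine AnalyticAt.prod (analyticAt_fst.sub ?_) analyticAt_snd
      exact AnalyticAt.fun_comp (g := m) (f := fun p : ℂ × ℂ => p.2) (hm _ hpR) analyticAt_snd
    refine h1.congr ?_
    have h2 : ∀ᶠ q : ℂ × ℂ in 𝓝 p, q.2 ∈ ball (0:ℂ) r :=
      continuous_snd.continuousAt.eventually (isOpen_ball.mem_nhds hp)
    filter_upwards [h2] with q hq
    rw [shear_apply, hmt]
    simp only [hrete q.2 hq, sub_eq_add_neg]

section shift

variable {m : ℂ → ℂ} {R₁ : ℝ} {f g : ℂ × ℂ → ℂ} {p : ℂ × ℂ}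

private theorem sh_aux (hm : AnalyticOnNhd ℂ m (ball 0 R₁)) (hp : p.2 ∈ ball (0:ℂ) R₁) :
    ∃ e : (ℂ × ℂ) ≃ₜ (ℂ × ℂ), AnalyticAt ℂ e p ∧ e p = (p.1 - m p.2, p.2) ∧
      ∀ f : ℂ × ℂ → ℂ, (fun q => f (e q)) =ᶠ[𝓝 p] sh m f := by
  rw [mem_ball_zero_iff] at hp
  obtain ⟨r, hr1, hr2⟩ := exists_between hp
  have hr0 : 0 < r := (norm_nonneg _).trans_lt hr1
  obtain ⟨e, he⟩ := exists_shear hm hr0 hr2
  have hpr : p.2 ∈ ball (0:ℂ) r := by rwa [mem_ball_zero_iff]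
  refine ⟨e, (he p hpr).2, (he p hpr).1, fun f => ?_⟩
  have h2 : ∀ᶠ q : ℂ × ℂ in 𝓝 p, q.2 ∈ ball (0:ℂ) r :=
    continuous_snd.continuousAt.eventually (isOpen_ball.mem_nhds hpr)
  filter_upwards [h2] with q hq
  rw [(he q hq).1]
  rfl

theorem merAt_sh (hm : AnalyticOnNhd ℂ m (ball 0 R₁)) (hp : p.2 ∈ ball (0:ℂ) R₁)
    (hf : MerAt f (p.1 - m p.2, p.2)) : MerAt (sh m f) p := by
  obtain ⟨e, he, hep, hee⟩ := sh_aux hm hp
  exact (MerAt.comp e he (by rw [hep]; exact hf)).congr (EqM.of_eventuallyEq (hee f))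

theorem eqM_sh (hm : AnalyticOnNhd ℂ m (ball 0 R₁)) (hp : p.2 ∈ ball (0:ℂ) R₁)
    (hf : EqM f g (p.1 - m p.2, p.2)) : EqM (sh m f) (sh m g) p := by
  obtain ⟨e, he, hep, hee⟩ := sh_aux hm hp
  exact ((EqM.of_eventuallyEq (hee f)).symm.trans (EqM.comp e he (by rw [hep]; exact hf))).trans
    (EqM.of_eventuallyEq (hee g))

theorem an_sh (hm : AnalyticOnNhd ℂ m (ball 0 R₁)) (hp : p.2 ∈ ball (0:ℂ) R₁)
    (hf : AnalyticAt ℂ f (p.1 - m p.2, p.2)) : AnalyticAt ℂ (sh m f) p := by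
  have h1 : AnalyticAt ℂ (fun q : ℂ × ℂ => (q.1 - m q.2, q.2)) p := by
    refine AnalyticAt.prod (analyticAt_fst.sub ?_) analyticAt_snd
    exact AnalyticAt.fun_comp (g := m) (f := fun p : ℂ × ℂ => p.2) (hm _ hp) analyticAt_snd
  exact AnalyticAt.fun_comp (g := f) hf h1

theorem sh_neg_sh (m : ℂ → ℂ) (f : ℂ × ℂ → ℂ) : sh (fun ρ => -m ρ) (sh m f) = f := by
  funext p
  simp [sh]

end shift

/-! ### Small parameters -/

/-- the parameters `‖ρ‖ < R'` are small -/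
structure Sm (F : ℂ × ℂ → ℂ) (c h R R₁ C R' : ℝ) : Prop where
  pos : 0 < R'
  le_one : R' ≤ 1
  le : R' ≤ R
  le₁ : R' ≤ R₁
  lt_c : C * R' ^ 2 + R' < c
  lt_h : C * R' ^ 2 + R' ≤ h / 4
  lt_one : C * R' ^ 2 + R' < 1
  hg : ∀ ρ ∈ ball (0:ℂ) R', c < hgt F c (c / 4) (h + 1) ρ ∧
    3 * h / 4 ≤ hgt F c (c / 4) (h + 1) ρ

theorem Sm.mono {R R₁ C R' R'' : ℝ} (hs : Sm F c h R R₁ C R') (hC : 0 ≤ C) (h0 : 0 < R'')
    (h1 : R'' ≤ R') : Sm F c h R R₁ C R'' := by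
  have h2 : C * R'' ^ 2 + R'' ≤ C * R' ^ 2 + R' := by gcongr
  exact ⟨h0, h1.trans hs.le_one, h1.trans hs.le, h1.trans hs.le₁, h2.trans_lt hs.lt_c,
    h2.trans hs.lt_h, h2.trans_lt hs.lt_one, fun ρ hρ => hs.hg ρ (ball_subset_ball h1 hρ)⟩

theorem exists_sm (hE : ConE k F c h G) {R R₁ C : ℝ} (hR : 0 < R) (hR₁ : 0 < R₁) :
    ∃ R', Sm F c h R R₁ C R' := by
  have hc := hE.pos
  have hch := hE.hc
  have hh : 0 < h := hc.trans hch
  obtain ⟨y, hy1, hy2⟩ := exists_between (max_lt hch (show 3 * h / 4 < h by linarith))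
  have h1 : ∀ᶠ ρ in 𝓝 (0:ℂ), ExtM F c (c / 4) y ρ := (hE.ext y hy2).eventually
  obtain ⟨δ, hδ, h2⟩ := Metric.eventually_nhds_iff_ball.1 h1
  have h3 : Tendsto (fun x : ℝ => C * x ^ 2 + x) (𝓝[>] 0) (𝓝 0) := by
    have h4 : Continuous fun x : ℝ => C * x ^ 2 + x := by fun_prop
    have h5 := h4.tendsto 0
    simp only [ne_eq, OfNat.ofNat_ne_zero, not_false_eq_true, zero_pow, mul_zero, add_zero] at h5
    exact h5.mono_left nhdsWithin_le_nhds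
  have h4 : ∀ᶠ x : ℝ in 𝓝[>] 0, C * x ^ 2 + x < min (min c 1) (h / 4) :=
    h3.eventually (gt_mem_nhds (by positivity))
  have h5 : ∀ᶠ x : ℝ in 𝓝[>] 0, x ∈ Ioo 0 (min (min δ 1) (min R R₁)) :=
    Ioo_mem_nhdsGT (by positivity)
  obtain ⟨x, h6, h7⟩ := (h4.and h5).exists
  have h8 := h7.2.le
  have h9 := h8.trans (min_le_left _ _)
  have h10 := h8.trans (min_le_right _ _)
  refine ⟨x, h7.1, h9.trans (min_le_right _ _), h10.trans (min_le_left _ _),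
    h10.trans (min_le_right _ _), h6.trans_le ((min_le_left _ _).trans (min_le_left _ _)),
    (h6.trans_le (min_le_right _ _)).le, h6.trans_le ((min_le_left _ _).trans (min_le_right _ _)),
    fun ρ hρ => ?_⟩
  have h11 := h2 ρ (ball_subset_ball (h9.trans (min_le_left _ _)) hρ)
  have h12 := le_hgt_of_extM h11 (by linarith : y ≤ h + 1)
  exact ⟨((le_max_left _ _).trans_lt hy1).trans_le h12,
    (((le_max_right _ _).trans_lt hy1).le).trans h12⟩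

section fields

variable {R R₁ C R' : ℝ} {m : ℂ → ℂ} {L : ℂ × ℂ → ℂ}

theorem norm_m_le (hm : IsMean m R₁ C) (hs : Sm F c h R R₁ C R') {ρ : ℂ}
    (hρ : ρ ∈ ball (0:ℂ) R') : ‖m ρ‖ ≤ C * R' ^ 2 := by
  have h1 := hm.bd ρ (ball_subset_ball hs.le₁ hρ)
  rw [mem_ball_zero_iff] at hρ
  have := hm.C_nonneg
  refine h1.trans ?_
  gcongr

/-- the shifted point is in the domain of `G` -/
theorem dfu_mem (hL : LabY Y F G c h R L) (hm : IsMean m R₁ C)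
    (hs : Sm F c h R R₁ C R') {p : ℂ × ℂ} (hp : p ∈ DFU (vm F c h m) h R') :
    (p.1 - m p.2, p.2) ∈ DF F c (c / 4) := by
  obtain ⟨h1, h2, h3⟩ := hp
  have hρ : p.2 ∈ ball (0:ℂ) R' := by rwa [mem_ball_zero_iff]
  have hρ4 : p.2 ∈ ball (0:ℂ) (c / 4) := ball_subset_ball (hs.le.trans hL.R_le) hρ
  have hρ' : conj p.2 ∈ ball (0:ℂ) R' := by rwa [mem_ball_zero_iff, RCLike.norm_conj]
  have hρ4' : conj p.2 ∈ ball (0:ℂ) (c / 4) := ball_subset_ball (hs.le.trans hL.R_le) hρ'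
  have h4 := norm_m_le hm hs hρ
  have h5 := abs_le.1 ((abs_im_le_norm (m p.2)).trans h4)
  have h6 := hs.lt_c
  have h7 := hs.pos
  unfold vm at h3
  have hlt : (p.1 - m p.2).im < hgt F c (c / 4) (h + 1) p.2 := by
    rw [sub_im]
    linarith
  have hlt' : -(p.1 - m p.2).im < hgt F c (c / 4) (h + 1) (conj p.2) := by
    have h8 := (hs.hg _ hρ').1
    rw [sub_im]
    linarith
  obtain ⟨y, hy1, hy2⟩ := exists_between hlt
  obtain ⟨y', hy1', hy2'⟩ := exists_between hlt'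
  exact ⟨hρ4, ⟨y, hy1, extM_of_lt hρ4 hy2⟩, y', hy1', extM_of_lt hρ4' hy2'⟩

/-- the shifted point is in the domain of the label -/
theorem dku_mem (hE : ConE k F c h G) (hL : LabY Y F G c h R L) (hm : IsMean m R₁ C)
    (hs : Sm F c h R R₁ C R') {p : ℂ × ℂ} (hp : p ∈ DKU (vm F c h m) h R') :
    (p.1 - m p.2, p.2) ∈ DK F c R := by
  obtain ⟨h1, h2, h3⟩ := hp
  have hρ : p.2 ∈ ball (0:ℂ) R' := by rwa [mem_ball_zero_iff]
  have hρ' : conj p.2 ∈ ball (0:ℂ) R' := by rwa [mem_ball_zero_iff, RCLike.norm_conj]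
  have h4 := norm_m_le hm hs hρ
  have h5 := abs_le.1 ((abs_im_le_norm (m p.2)).trans h4)
  have h6 := hs.lt_c
  have h9 := (abs_im_le_norm p.2).trans h1.le
  unfold vm at h3
  refine Pool.Agent.MP_ae5b4e_an_M0.mem_DK_of_hgt (y₁ := h + 1) hE hL.R_le
    (ball_subset_ball hs.le hρ) ?_ ?_
  · rw [sub_im]
    linarith
  · have h8 := (hs.hg _ hρ').1
    rw [sub_im]
    linarith

theorem isOpen_DK (F : ℂ × ℂ → ℂ) (c R : ℝ) : IsOpen (DK F c R) := isOpen_Dom _ _ _ _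

theorem m_zero (hm : IsMean m R₁ C) : m 0 = 0 := by
  have := hm.bd 0 (mem_ball_self hm.R_pos)
  simpa using this

theorem half_of (hm : IsMean m R₁ C) (hs : Sm F c h R R₁ C R') :
    ∀ ρ ∈ ball (0:ℂ) R', vm F c h m ρ + |ρ.im| ≤ h / 2 := by
  intro ρ hρ
  have h4 := norm_m_le hm hs hρ
  have h5 := abs_le.1 ((abs_im_le_norm (m ρ)).trans h4)
  have h6 := hs.lt_h
  have h7 := (hs.hg ρ hρ).2
  rw [mem_ball_zero_iff] at hρ
  have h9 := (abs_im_le_norm ρ).trans hρ.le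
  unfold vm
  linarith

/-- the potential and the second coefficient of the shifted label -/
theorem exists_qa (hY : Y.On (St (-h) h)) (hL : LabY Y F G c h R L) (hm : IsMean m R₁ C) :
    ∃ κ : ℂ, ∀ t : ℂ, |t.im| < h →
      Y.Q t + 3 * deriv (fun s => deriv (deriv (fun ρ => sh m L (s, ρ))) 0) t = κ := by
  have hm0 := m_zero hm
  have h0 : (0:ℂ) ∈ ball (0:ℂ) R₁ := mem_ball_self hm.R_pos
  have htend : ∀ t : ℂ, Tendsto (fun q : ℂ × ℂ => ((q.1 - m q.2, q.2) : ℂ × ℂ)) (𝓝 (t, 0))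
      (𝓝 (t, 0)) := by
    intro t
    have h1 : ContinuousAt (fun q : ℂ × ℂ => ((q.1 - m q.2, q.2) : ℂ × ℂ)) (t, 0) := by
      refine ContinuousAt.prodMk (continuousAt_fst.sub ?_) continuousAt_snd
      exact ContinuousAt.comp (g := m) (f := fun q : ℂ × ℂ => q.2) (hm.an 0 h0).continuousAt
        continuousAt_snd
    have h2 := h1.tendsto
    simpa only [hm0, sub_zero] using h2
  have hopD := isOpen_DK F c R
  have hND : ∀ t ∈ St (-h) h, ∀ᶠ q : ℂ × ℂ in 𝓝 (t, 0), (q.1 - m q.2, q.2) ∈ ND F c R := by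
    intro t ht
    have h1 := hL.mem0 t (abs_lt.2 ht)
    exact (htend t).eventually ((isOpen_ND F c R).mem_nhds
      ⟨h1, by simpa using h1, by simpa using h1⟩)
  have hev : ∀ t ∈ St (-h) h, ∀ᶠ q : ℂ × ℂ in 𝓝 (t, 0), q.2 ∈ ball (0:ℂ) R₁ := fun t _ =>
    continuous_snd.continuousAt.eventually (isOpen_ball.mem_nhds h0)
  obtain ⟨-, κ, hκ⟩ := Pool.Agent.MP_ae5b4e_an_M0.bc_Q hY (L := sh m L)
    (fun t ht => an_sh hm.an h0 (by
      show AnalyticAt ℂ L (t - m 0, 0)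
      rw [hm0, sub_zero]
      exact hL.an _ (hL.mem0 t (abs_lt.2 ht))))
    (fun t ht => by
      show L (t - m 0, 0) = t
      rw [hm0, sub_zero]
      exact hL.zero t (abs_lt.2 ht))
    (fun t ht => by
      filter_upwards [hND t ht, hev t ht] with q hq hq2
      show L (q.1 - m (-q.2), -q.2) = L (q.1 - m q.2, q.2)
      rw [hm.even _ hq2]
      exact hL.even _ hq.1)
    (fun t ht => by
      filter_upwards [hND t ht] with q hq
      have h1 := hL.node _ _ hq.1 hq.2.1 hq.2.2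
      show nf Y (L (q.1 - q.2 - m q.2, q.2)) (L (q.1 - m q.2, q.2))
        (L (q.1 + q.2 - m q.2, q.2)) = 0
      have e1 : q.1 - q.2 - m q.2 = q.1 - m q.2 - q.2 := by ring
      have e2 : q.1 + q.2 - m q.2 = q.1 - m q.2 + q.2 := by ring
      rw [e1, e2]
      exact h1)
  refine ⟨κ, fun t ht => ?_⟩
  have h1 := hκ t (abs_lt.1 ht)
  have h2 : Pool.Agent.MP_ae5b4e_an_M0.bc (sh m L) =
      fun s => deriv (deriv (fun ρ => sh m L (s, ρ))) 0 / 2 := by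
    funext s
    unfold Pool.Agent.MP_ae5b4e_an_M0.bc
    rw [iteratedDeriv_succ, iteratedDeriv_one]
    congr 2
    funext ρ
    rw [deriv_sub_const]
  rw [h2, deriv_div_const] at h1
  rw [h1]
  ring

end fields

end Pool.Agent.MP_ae5b4e_an_PB
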